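import Mathlib
import Pool.Agent.N392.Ab.Base

/-!
# Heisenberg orbits of cubic phases with one enlarged entry
-/

set_option autoImplicit false

open Finset ComplexConjugate

namespace Pool.Agent.L7h42.Zauner

open Pool.Agent.N392.Ab

section Tight

variable {A : Type*} [AddCommGroup A] [Fintype A]

theorem sum_char [DecidableEq A] (m : A) :
    ∑ χ : AddChar A ℂ, χ m = if m = 0 then (Fintype.card A : ℂ) else 0 := by
  classical
  rw [AddChar.sum_apply_eq_ite]

/-- Parseval -/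
theorem parseval (g : A → ℂ) :
    ∑ χ : AddChar A ℂ, ((‖∑ k, conj (χ k) * g k‖ ^ 2 : ℝ) : ℂ) =
      Fintype.card A * ∑ k, ((‖g k‖ ^ 2 : ℝ) : ℂ) := by
  classical
  have h1 : ∀ χ : AddChar A ℂ, ((‖∑ k, conj (χ k) * g k‖ ^ 2 : ℝ) : ℂ) =
      ∑ k, ∑ l, g k * conj (g l) * χ (l - k) := by
    intro χ
    push_cast
    rw [← Complex.mul_conj', map_sum, Finset.sum_mul_sum]
    refine Finset.sum_congr rfl fun k _ => Finset.sum_congr rfl fun l _ => ?_
    rw [map_mul, Complex.conj_conj, conj_char, sub_eq_add_neg, AddChar.map_add_eq_mul]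
    ring
  simp_rw [h1]
  rw [Finset.sum_comm, Finset.mul_sum]
  refine Finset.sum_congr rfl fun k _ => ?_
  rw [Finset.sum_comm]
  have h2 : ∀ l, ∑ χ : AddChar A ℂ, g k * conj (g l) * χ (l - k) =
      if l = k then (Fintype.card A : ℂ) * (g k * conj (g k)) else 0 := by
    intro l
    rw [← Finset.mul_sum, sum_char]
    by_cases h : l = k
    · rw [if_pos (sub_eq_zero.2 h), if_pos h, h]; ring
    · rw [if_neg (sub_ne_zero.2 h), if_neg h, mul_zero]
  simp_rw [h2]
  rw [Finset.sum_ite_eq']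
  rw [if_pos (Finset.mem_univ _)]
  push_cast
  rw [Complex.mul_conj']

/-- the orbit is an exactly tight frame -/
theorem tight (x u : EuclideanSpace ℂ A) :
    ∑ v : A × AddChar A ℂ, ‖inner ℂ (shift v x) u‖ ^ 2 =
      (Fintype.card A : ℝ) * ‖x‖ ^ 2 * ‖u‖ ^ 2 := by
  classical
  have h0 : ∀ (a : A) (χ : AddChar A ℂ), inner ℂ (shift (a, χ) x) u =
      ∑ k, conj (χ k) * (conj (x (k - a)) * u k) := by
    intro a χ
    rw [PiLp.inner_apply]
    refine Finset.sum_congr rfl fun k _ => ?_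
    unfold shift
    simp only [RCLike.inner_apply]
    rw [map_mul (starRingEnd ℂ)]
    ring
  have h1 : ∀ a : A, ∑ χ : AddChar A ℂ, ‖inner ℂ (shift (a, χ) x) u‖ ^ 2 =
      (Fintype.card A : ℝ) * ∑ k, (‖x (k - a)‖ ^ 2 * ‖u k‖ ^ 2) := by
    intro a
    have h2 := parseval (fun k => conj (x (k - a)) * u k)
    have h3 : ((∑ χ : AddChar A ℂ, ‖inner ℂ (shift (a, χ) x) u‖ ^ 2 : ℝ) : ℂ) =
        (((Fintype.card A : ℝ) * ∑ k, (‖x (k - a)‖ ^ 2 * ‖u k‖ ^ 2) : ℝ) : ℂ) := by
      push_cast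
      push_cast at h2
      simp_rw [h0]
      rw [h2]
      congr 1
      refine Finset.sum_congr rfl fun k _ => ?_
      rw [norm_mul, RCLike.norm_conj]
      push_cast
      ring
    exact_mod_cast h3
  rw [Fintype.sum_prod_type]
  simp_rw [h1]
  rw [← Finset.mul_sum, Finset.sum_comm]
  have h4 : ∀ k : A, ∑ a, ‖x (k - a)‖ ^ 2 * ‖u k‖ ^ 2 = ‖x‖ ^ 2 * ‖u k‖ ^ 2 := by
    intro k
    rw [← Finset.sum_mul, EuclideanSpace.norm_sq_eq]
    congr 1
    exact Fintype.sum_equiv (Equiv.subLeft k) _ _ fun a => by rw [Equiv.subLeft_apply]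
  simp_rw [h4]
  rw [← Finset.mul_sum, EuclideanSpace.norm_sq_eq u, mul_assoc]

end Tight

variable {F : Type*} [Field F] [Fintype F]

/-- quadratic exponential sums -/
theorem quad_sum (h2 : (2 : F) ≠ 0) {ψ : AddChar F ℂ} (hψ : ψ.IsPrimitive) {α : F} (hα : α ≠ 0)
    (χ : AddChar F ℂ) : ‖∑ k, ψ (α * k ^ 2) * χ k‖ ^ 2 = Fintype.card F := by
  classical
  have h1 : (((‖∑ k, ψ (α * k ^ 2) * χ k‖ ^ 2 : ℝ) : ℂ)) = Fintype.card F := by
    push_cast
    rw [← Complex.mul_conj', map_sum, Finset.sum_mul_sum]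
    have h3 : ∀ k : F, ∑ l, ψ (α * k ^ 2) * χ k * conj (ψ (α * l ^ 2) * χ l) =
        ∑ h, ψ (-(α * h ^ 2)) * χ (-h) * ψ (k * (-(2 * α * h))) := by
      intro k
      refine Fintype.sum_equiv (Equiv.subRight k) _ _ fun l => ?_
      rw [Equiv.subRight_apply, map_mul (starRingEnd ℂ), conj_char, conj_char]
      have e1 : ψ (-(α * (l - k) ^ 2)) * ψ (k * (-(2 * α * (l - k)))) =
          ψ (α * k ^ 2) * ψ (-(α * l ^ 2)) := by
        rw [← AddChar.map_add_eq_mul, ← AddChar.map_add_eq_mul]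
        congr 1
        ring
      have e2 : χ (-(l - k)) = χ k * χ (-l) := by
        rw [← AddChar.map_add_eq_mul]
        congr 1
        ring
      rw [e2]
      linear_combination (-(χ k * χ (-l))) * e1
    rw [Finset.sum_congr rfl fun k _ => h3 k, Finset.sum_comm]
    have h4 : ∀ h : F, ∑ k, ψ (-(α * h ^ 2)) * χ (-h) * ψ (k * (-(2 * α * h))) =
        if h = 0 then (Fintype.card F : ℂ) else 0 := by
      intro h
      rw [← Finset.mul_sum, AddChar.sum_mulShift _ hψ]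
      by_cases h0 : h = 0
      · subst h0
        simp
      · rw [if_neg h0, if_neg, Nat.cast_zero, mul_zero]
        rw [neg_eq_zero]
        exact mul_ne_zero (mul_ne_zero h2 hα) h0
    simp_rw [h4]
    rw [Finset.sum_ite_eq']
    simp
  exact_mod_cast h1

/-- the parameter `t = 1/√(q+1)` -/
noncomputable def tt (F : Type*) [Fintype F] : ℝ := 1 / Real.sqrt ((Fintype.card F : ℝ) + 1)

/-- modulus of the entries at `k ≠ 0` -/
noncomputable def aa (F : Type*) [Fintype F] : ℝ :=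
  Real.sqrt ((1 - tt F) / Fintype.card F)

/-- modulus of the entry at `0` -/
noncomputable def bb (F : Type*) [Fintype F] : ℝ := Real.sqrt (aa F ^ 2 + tt F)

/-- the fiducial vector -/
noncomputable def fid (ψ : AddChar F ℂ) : EuclideanSpace ℂ F :=
  open Classical in
  WithLp.toLp 2 fun k => if k = 0 then (bb F : ℂ) else (aa F : ℂ) * ψ (k ^ 3)

theorem fid_zero (ψ : AddChar F ℂ) : fid ψ 0 = (bb F : ℂ) := by
  unfold fid
  simp

theorem fid_ne (ψ : AddChar F ℂ) {k : F} (hk : k ≠ 0) :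
    fid ψ k = (aa F : ℂ) * ψ (k ^ 3) := by
  unfold fid
  simp [hk]

theorem fid_eq [DecidableEq F] (ψ : AddChar F ℂ) (k : F) :
    fid ψ k = (aa F : ℂ) * ψ (k ^ 3) + if k = 0 then ((bb F - aa F : ℝ) : ℂ) else 0 := by
  by_cases hk : k = 0
  · subst hk
    rw [fid_zero, if_pos rfl]
    simp
  · rw [fid_ne ψ hk, if_neg hk, add_zero]

section Param

variable (F)

omit [Field F] in
theorem q_pos [Nonempty F] : (0 : ℝ) < Fintype.card F := by exact_mod_cast Fintype.card_pos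

omit [Field F] in
theorem tt_pos : 0 < tt F := by unfold tt; positivity

omit [Field F] in
theorem tt_le_one : tt F ≤ 1 := by
  unfold tt
  rw [div_le_one (by positivity)]
  rw [show (1 : ℝ) = Real.sqrt 1 by simp]
  apply Real.sqrt_le_sqrt
  have : (0 : ℝ) ≤ Fintype.card F := by positivity
  simp

omit [Field F] in
theorem aa_nonneg : 0 ≤ aa F := Real.sqrt_nonneg _

omit [Field F] in
theorem aa_sq [Nonempty F] : aa F ^ 2 = (1 - tt F) / Fintype.card F := by
  unfold aa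
  rw [Real.sq_sqrt]
  have := tt_le_one F
  apply div_nonneg (by linarith) (q_pos F).le

omit [Field F] in
theorem bb_nonneg : 0 ≤ bb F := Real.sqrt_nonneg _

omit [Field F] in
theorem bb_sq : bb F ^ 2 = aa F ^ 2 + tt F := by
  unfold bb
  rw [Real.sq_sqrt]
  have := tt_pos F
  positivity

omit [Field F] in
theorem aa_le_bb : aa F ≤ bb F := by
  have h := bb_sq F
  have := tt_pos F
  nlinarith [aa_nonneg F, bb_nonneg F]

omit [Field F] in
theorem diff_le : bb F - aa F ≤ Real.sqrt (tt F) := by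
  have h := bb_sq F
  have h1 := tt_pos F
  have h2 := aa_nonneg F
  have h3 := bb_nonneg F
  have h4 := Real.sqrt_nonneg (tt F)
  have h5 := Real.sq_sqrt h1.le
  by_contra hcon
  rw [not_le] at hcon
  have h6 : Real.sqrt (tt F) + aa F < bb F := by linarith
  have h7 : (Real.sqrt (tt F) + aa F) ^ 2 < bb F ^ 2 := by
    apply pow_lt_pow_left₀ h6 (by positivity) two_ne_zero
  nlinarith [mul_nonneg h2 h4]

end Param

theorem norm_fid_entry (ψ : AddChar F ℂ) [DecidableEq F] (k : F) :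
    ‖fid ψ k‖ ^ 2 = aa F ^ 2 + if k = 0 then tt F else 0 := by
  by_cases hk : k = 0
  · subst hk
    rw [fid_zero, if_pos rfl, Complex.norm_real, Real.norm_eq_abs, sq_abs, bb_sq]
  · rw [fid_ne ψ hk, if_neg hk, norm_mul, norm_char, Complex.norm_real, Real.norm_eq_abs,
      mul_one, sq_abs, add_zero]

theorem norm_fid (ψ : AddChar F ℂ) : ‖fid ψ‖ = 1 := by
  classical
  have h : ‖fid ψ‖ ^ 2 = 1 := by
    rw [EuclideanSpace.norm_sq_eq]
    simp_rw [norm_fid_entry]
    rw [Finset.sum_add_distrib, Finset.sum_const, Finset.sum_ite_eq', if_pos (Finset.mem_univ _),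
      aa_sq, nsmul_eq_mul, Finset.card_univ]
    have := q_pos F
    field_simp
    ring
  have h0 : 0 ≤ ‖fid ψ‖ := norm_nonneg _
  nlinarith

/-- the overlaps with equal translation part -/
theorem ov_zero (ψ : AddChar F ℂ) {χ : AddChar F ℂ} (hχ : χ ≠ 0) :
    ov (fid ψ) 0 χ = (tt F : ℂ) := by
  classical
  unfold ov
  have h1 : ∀ k : F, conj (fid ψ k) * fid ψ (k + 0) * χ k =
      ((aa F ^ 2 : ℝ) : ℂ) * χ k + if k = 0 then ((tt F : ℝ) : ℂ) else 0 := by
    intro k
    rw [add_zero, mul_comm (conj _), Complex.mul_conj']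
    have h2 := norm_fid_entry ψ k
    have h3 : ((‖fid ψ k‖ : ℂ)) ^ 2 = ((‖fid ψ k‖ ^ 2 : ℝ) : ℂ) := by push_cast; rfl
    rw [h3, h2]
    by_cases hk : k = 0
    · subst hk
      simp
    · rw [if_neg hk, if_neg hk]
      simp
  simp_rw [h1]
  rw [Finset.sum_add_distrib, ← Finset.mul_sum, Finset.sum_ite_eq', if_pos (Finset.mem_univ _),
    AddChar.sum_eq_zero_iff_ne_zero.2 hχ]
  simp

/-- the overlaps with different translation parts -/
theorem ov_ne (ψ χ : AddChar F ℂ) {a : F} (ha : a ≠ 0) :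
    ov (fid ψ) a χ = ((aa F ^ 2 : ℝ) : ℂ) * (ψ (a ^ 3) *
        ∑ k, ψ (3 * a * k ^ 2) * (χ * ψ.mulShift (3 * a ^ 2)) k) +
      ((aa F * (bb F - aa F) : ℝ) : ℂ) * (ψ (a ^ 3) * (1 + χ (-a))) := by
  classical
  unfold ov
  have hψn : ∀ z : F, ψ (-z) * ψ z = 1 := by
    intro z
    rw [← AddChar.map_add_eq_mul]
    simp
  have h1 : ∀ k : F, conj (fid ψ k) * fid ψ (k + a) * χ k =
      ((aa F ^ 2 : ℝ) : ℂ) * (ψ (a ^ 3) * (ψ (3 * a * k ^ 2) * (χ * ψ.mulShift (3 * a ^ 2)) k)) +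
      ((if k = 0 then ((aa F * (bb F - aa F) : ℝ) : ℂ) * ψ (a ^ 3) else 0) +
       if k = -a then ((aa F * (bb F - aa F) : ℝ) : ℂ) * (ψ (a ^ 3) * χ (-a)) else 0) := by
    intro k
    have e1 : ψ (-(k ^ 3)) * ψ ((k + a) ^ 3) =
        ψ (a ^ 3) * (ψ (3 * a * k ^ 2) * ψ (3 * a ^ 2 * k)) := by
      rw [← AddChar.map_add_eq_mul, ← AddChar.map_add_eq_mul, ← AddChar.map_add_eq_mul]
      congr 1
      ring
    rw [fid_eq ψ k, fid_eq ψ (k + a), AddChar.mul_apply, AddChar.mulShift_apply]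
    by_cases hk : k = 0
    · subst hk
      have : (0 : F) ≠ -a := by
        intro h
        exact ha (by rw [← neg_neg a, ← h, neg_zero])
      rw [if_pos rfl, if_pos rfl, if_neg (by rwa [zero_add]), if_neg this]
      simp
      ring
    · by_cases hk2 : k = -a
      · subst hk2
        rw [if_neg hk, if_neg hk, if_pos (by ring), if_pos rfl]
        simp only [map_mul, Complex.conj_ofReal, add_zero]
        rw [conj_char]
        have e2 : ψ (-((-a) ^ 3)) = ψ (a ^ 3) := by congr 1; ring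
        have e3 : (-a + a) ^ 3 = (0 : F) := by ring
        rw [e3, e2] at e1
        rw [e3, e2]
        rw [AddChar.map_zero_eq_one] at e1 ⊢
        push_cast
        linear_combination ((aa F : ℂ) ^ 2 * χ (-a)) * e1
      · rw [if_neg hk, if_neg hk, if_neg hk2, if_neg (by
          intro h
          apply hk2
          exact eq_neg_of_add_eq_zero_left h)]
        simp only [map_mul, Complex.conj_ofReal, add_zero]
        rw [conj_char]
        push_cast
        linear_combination ((aa F : ℂ) ^ 2 * χ k) * e1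
  simp_rw [h1]
  rw [Finset.sum_add_distrib, Finset.sum_add_distrib, ← Finset.mul_sum, ← Finset.mul_sum,
    Finset.sum_ite_eq', Finset.sum_ite_eq', if_pos (Finset.mem_univ _), if_pos (Finset.mem_univ _)]
  ring

theorem norm_quad (h2 : (2 : F) ≠ 0) (h3 : (3 : F) ≠ 0) {ψ : AddChar F ℂ} (hψ : ψ.IsPrimitive)
    {a : F} (ha : a ≠ 0) (χ : AddChar F ℂ) :
    ‖ψ (a ^ 3) * ∑ k, ψ (3 * a * k ^ 2) * χ k‖ = Real.sqrt (Fintype.card F) := by
  rw [norm_mul, norm_char, one_mul]
  have h := quad_sum h2 hψ (mul_ne_zero h3 ha) χ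
  rw [← h, Real.sqrt_sq (norm_nonneg _)]

/-- all overlaps with different translation parts are close to `q^(-1/2)` -/
theorem ov_bound (h2 : (2 : F) ≠ 0) (h3 : (3 : F) ≠ 0) {ψ : AddChar F ℂ} (hψ : ψ.IsPrimitive)
    {a : F} (ha : a ≠ 0) (χ : AddChar F ℂ) :
    |‖ov (fid ψ) a χ‖ - aa F ^ 2 * Real.sqrt (Fintype.card F)| ≤
      2 * (aa F * Real.sqrt (tt F)) := by
  set u : ℂ := ((aa F ^ 2 : ℝ) : ℂ) * (ψ (a ^ 3) *
        ∑ k, ψ (3 * a * k ^ 2) * (χ * ψ.mulShift (3 * a ^ 2)) k) with hu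
  set v : ℂ := ((aa F * (bb F - aa F) : ℝ) : ℂ) * (ψ (a ^ 3) * (1 + χ (-a))) with hv
  have h1 : ov (fid ψ) a χ = u + v := ov_ne ψ χ ha
  have h4 : ‖u‖ = aa F ^ 2 * Real.sqrt (Fintype.card F) := by
    rw [hu, norm_mul, norm_quad h2 h3 hψ ha, Complex.norm_real, Real.norm_eq_abs, abs_of_nonneg]
    positivity
  have h5 : ‖v‖ ≤ 2 * (aa F * Real.sqrt (tt F)) := by
    rw [hv, norm_mul, norm_mul, norm_char, one_mul, Complex.norm_real, Real.norm_eq_abs]
    have h6 : ‖1 + χ (-a)‖ ≤ 2 := by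
      refine (norm_add_le _ _).trans ?_
      rw [norm_char, norm_one]
      norm_num
    have h7 : |aa F * (bb F - aa F)| ≤ aa F * Real.sqrt (tt F) := by
      rw [abs_of_nonneg (mul_nonneg (aa_nonneg F) (sub_nonneg.2 (aa_le_bb F)))]
      exact mul_le_mul_of_nonneg_left (diff_le F) (aa_nonneg F)
    calc _ ≤ (aa F * Real.sqrt (tt F)) * 2 :=
          mul_le_mul h7 h6 (norm_nonneg _) (mul_nonneg (aa_nonneg F) (Real.sqrt_nonneg _))
      _ = _ := by ring
  rw [h1, ← h4]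
  have h8 : |‖u + v‖ - ‖u‖| ≤ ‖v‖ := by
    have := abs_norm_sub_norm_le (u + v) u
    rwa [add_sub_cancel_left] at this
  exact h8.trans h5

end Pool.Agent.L7h42.Zauner
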