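import Mathlib
import Pool.Agent.L7h42.Zauner.Cubic

/-!
# Heisenberg covariant almost maximal equiangular tight frames
-/

set_option autoImplicit false

open Finset ComplexConjugate

namespace Pool.Agent.L7h42.Zauner

open Pool.Agent.N392.Ab

theorem num {ε t z Q : ℝ} (hε : 0 < ε) (hε4 : 5 * ε ^ 4 ≤ 1) (ht0 : 0 ≤ t) (ht : t ≤ ε ^ 2)
    (hQ : Q * ε ^ 4 = 1 + ε ^ 4) (hz0 : 0 ≤ z) (hz : |z - (1 - t) * ε ^ 2| ≤ 2 * ε ^ 3) :
    |Q * z ^ 2 - 1| ≤ 4 * ε + 7 * ε ^ 2 := by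
  rw [abs_le] at hz
  have hε4p : 0 < ε ^ 4 := by positivity
  have hQ0 : 0 < Q := by
    by_contra h
    rw [not_lt] at h
    nlinarith
  have hεb : ε ^ 2 ≤ 9 / 20 := by
    by_contra h
    rw [not_le] at h
    nlinarith [sq_nonneg (ε ^ 2)]
  have hε1 : ε ≤ 7 / 10 := by
    by_contra h
    rw [not_le] at h
    nlinarith
  have ht1 : t ≤ 1 := by linarith
  rw [abs_le]
  constructor
  · by_cases hneg : 1 - t - 2 * ε < 0
    · have : 0 ≤ Q * z ^ 2 := by positivity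
      nlinarith
    · rw [not_lt] at hneg
      have h1 : (1 - t - 2 * ε) * ε ^ 2 ≤ z := by nlinarith
      have h2 : ((1 - t - 2 * ε) * ε ^ 2) ^ 2 ≤ z ^ 2 :=
        pow_le_pow_left₀ (by positivity) h1 2
      have h3 : Q * ((1 - t - 2 * ε) * ε ^ 2) ^ 2 ≤ Q * z ^ 2 :=
        mul_le_mul_of_nonneg_left h2 hQ0.le
      have h4 : Q * ((1 - t - 2 * ε) * ε ^ 2) ^ 2 = (1 + ε ^ 4) * (1 - t - 2 * ε) ^ 2 := by
        rw [← hQ]; ring
      have h5 : (1 - t - 2 * ε) ^ 2 ≤ (1 + ε ^ 4) * (1 - t - 2 * ε) ^ 2 := by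
        nlinarith [sq_nonneg (1 - t - 2 * ε)]
      nlinarith [sq_nonneg (t + 2 * ε)]
  · have h1 : z ≤ (1 + 2 * ε) * ε ^ 2 := by nlinarith [sq_nonneg ε]
    have h2 : z ^ 2 ≤ ((1 + 2 * ε) * ε ^ 2) ^ 2 := pow_le_pow_left₀ hz0 h1 2
    have h3 : Q * z ^ 2 ≤ Q * ((1 + 2 * ε) * ε ^ 2) ^ 2 := mul_le_mul_of_nonneg_left h2 hQ0.le
    have h4 : Q * ((1 + 2 * ε) * ε ^ 2) ^ 2 = (1 + ε ^ 4) * (1 + 2 * ε) ^ 2 := by
      rw [← hQ]; ring
    have h5 : ε ^ 2 * (1 + 2 * ε) ^ 2 ≤ 3 := by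
      have h6 : (1 + 2 * ε) ^ 2 ≤ 6 := by nlinarith
      nlinarith [sq_nonneg (1 + 2 * ε)]
    nlinarith [mul_le_mul_of_nonneg_left h5 (sq_nonneg ε)]

variable {F : Type*} [Field F] [Fintype F]

theorem card_ge (h2 : (2 : F) ≠ 0) (h3 : (3 : F) ≠ 0) : 5 ≤ Fintype.card F := by
  have hp : (ringChar F).Prime := CharP.char_is_prime F (ringChar F)
  obtain ⟨n, -, hn⟩ := FiniteField.card F (ringChar F)
  have h2' : ringChar F ≠ 2 := by
    intro h
    apply h2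
    have := CharP.cast_eq_zero F (ringChar F)
    rw [h] at this
    exact_mod_cast this
  have h3' : ringChar F ≠ 3 := by
    intro h
    apply h3
    have := CharP.cast_eq_zero F (ringChar F)
    rw [h] at this
    exact_mod_cast this
  have h4' : ringChar F ≠ 4 := by
    intro h
    rw [h] at hp
    exact absurd hp (by norm_num)
  have h5 : 5 ≤ ringChar F := by
    have := hp.two_le
    omega
  rw [hn]
  calc 5 ≤ ringChar F := h5
    _ = ringChar F ^ 1 := (pow_one _).symm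
    _ ≤ ringChar F ^ (n : ℕ) := Nat.pow_le_pow_right hp.pos n.pos

/-- the parameter `q^(-1/4)` -/
noncomputable def ee (F : Type*) [Fintype F] : ℝ := (Fintype.card F : ℝ) ^ (-(1 / 4) : ℝ)

omit [Field F] in
theorem ee_pos [Nonempty F] : 0 < ee F := Real.rpow_pos_of_pos (q_pos F) _

omit [Field F] in
theorem ee_sq : ee F ^ 2 = (Fintype.card F : ℝ) ^ (-(1 / 2) : ℝ) := by
  unfold ee
  rw [← Real.rpow_natCast, ← Real.rpow_mul (by positivity)]
  norm_num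

omit [Field F] in
theorem ee_four : ee F ^ 4 = (Fintype.card F : ℝ)⁻¹ := by
  unfold ee
  rw [← Real.rpow_natCast, ← Real.rpow_mul (by positivity)]
  norm_num
  rw [Real.rpow_neg_one]

omit [Field F] in
theorem ee_sq_sqrt : ee F ^ 2 = 1 / Real.sqrt (Fintype.card F) := by
  rw [ee_sq, Real.rpow_neg (by positivity), ← Real.sqrt_eq_rpow, one_div]

omit [Field F] in
theorem tt_le [Nonempty F] : tt F ≤ ee F ^ 2 := by
  rw [ee_sq_sqrt]
  unfold tt
  apply one_div_le_one_div_of_le (Real.sqrt_pos.2 (q_pos F))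
  apply Real.sqrt_le_sqrt
  linarith

omit [Field F] in
theorem sqrt_tt_le [Nonempty F] : Real.sqrt (tt F) ≤ ee F := by
  rw [Real.sqrt_le_left (ee_pos).le]
  exact tt_le

omit [Field F] in
theorem aa_le [Nonempty F] : aa F ≤ ee F ^ 2 := by
  have h1 : aa F ^ 2 ≤ (ee F ^ 2) ^ 2 := by
    rw [aa_sq, ← pow_mul, ee_four, div_eq_mul_inv]
    have h2 := tt_pos F
    have h3 : (0 : ℝ) < (Fintype.card F : ℝ)⁻¹ := inv_pos.2 (q_pos F)
    nlinarith
  exact (pow_le_pow_iff_left₀ (aa_nonneg F) (by positivity) two_ne_zero).1 h1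

omit [Field F] in
theorem aa_sq_mul [Nonempty F] :
    aa F ^ 2 * Real.sqrt (Fintype.card F) = (1 - tt F) * ee F ^ 2 := by
  rw [aa_sq, ee_sq_sqrt]
  have h1 : Real.sqrt (Fintype.card F) ^ 2 = (Fintype.card F : ℝ) := Real.sq_sqrt (q_pos F).le
  have h2 : 0 < Real.sqrt (Fintype.card F) := Real.sqrt_pos.2 (q_pos F)
  field_simp
  rw [h1]

theorem approx (h2 : (2 : F) ≠ 0) (h3 : (3 : F) ≠ 0) {ψ : AddChar F ℂ} (hψ : ψ.IsPrimitive)
    {a : F} (ha : a ≠ 0) (χ : AddChar F ℂ) :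
    |((Fintype.card F : ℝ) + 1) * ‖ov (fid ψ) a χ‖ ^ 2 - 1| ≤
      4 * (Fintype.card F : ℝ) ^ (-(1 / 4) : ℝ) + 7 * (Fintype.card F : ℝ) ^ (-(1 / 2) : ℝ) := by
  have hq := q_pos F
  have h5 : (5 : ℝ) ≤ Fintype.card F := by exact_mod_cast card_ge h2 h3
  rw [← ee_sq]
  change _ ≤ 4 * ee F + _
  have h4 := ee_four (F := F)
  apply num (t := tt F) ee_pos ?_ (tt_pos F).le tt_le ?_ (norm_nonneg _) ?_
  · rw [h4]
    rw [← div_eq_mul_inv, div_le_one hq]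
    exact h5
  · rw [h4]
    field_simp
  · rw [← aa_sq_mul]
    refine (ov_bound h2 h3 hψ ha χ).trans ?_
    have h6 : aa F * Real.sqrt (tt F) ≤ ee F ^ 2 * ee F :=
      mul_le_mul aa_le sqrt_tt_le (Real.sqrt_nonneg _) (by positivity)
    nlinarith

theorem exists_prim (F : Type*) [Field F] [Fintype F] : ∃ ψ : AddChar F ℂ, ψ.IsPrimitive :=
  ⟨_, AddChar.FiniteField.primitiveChar_to_Complex_isPrimitive F⟩

/-- the overlap bound for the whole orbit -/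
theorem orbit (h2 : (2 : F) ≠ 0) (h3 : (3 : F) ≠ 0) {ψ : AddChar F ℂ} (hψ : ψ.IsPrimitive)
    {v w : F × AddChar F ℂ} (hvw : v ≠ w) :
    |((Fintype.card F : ℝ) + 1) * ‖inner ℂ (shift v (fid ψ)) (shift w (fid ψ))‖ ^ 2 - 1| ≤
      4 * (Fintype.card F : ℝ) ^ (-(1 / 4) : ℝ) + 7 * (Fintype.card F : ℝ) ^ (-(1 / 2) : ℝ) ∧
    (v.1 = w.1 → ‖inner ℂ (shift v (fid ψ)) (shift w (fid ψ))‖ =
      1 / Real.sqrt ((Fintype.card F : ℝ) + 1)) := by
  rw [inner_shift, norm_mul, norm_char, one_mul]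
  have h0 : ∀ χ : AddChar F ℂ, χ ≠ 0 → ‖ov (fid ψ) 0 χ‖ =
      1 / Real.sqrt ((Fintype.card F : ℝ) + 1) := by
    intro χ hχ
    rw [ov_zero ψ hχ, Complex.norm_real, Real.norm_eq_abs, abs_of_pos (tt_pos F)]
    rfl
  by_cases h : v.1 = w.1
  · have h4 : w.2 - v.2 ≠ 0 := by
      intro h5
      exact hvw (Prod.ext h (sub_eq_zero.1 h5).symm)
    rw [sub_eq_zero.2 h]
    refine ⟨?_, fun _ => h0 _ h4⟩
    rw [h0 _ h4, div_pow, one_pow, Real.sq_sqrt (by positivity)]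
    have : ((Fintype.card F : ℝ) + 1) * (1 / ((Fintype.card F : ℝ) + 1)) - 1 = 0 := by
      field_simp
      ring
    rw [this, abs_zero]
    positivity
  · exact ⟨approx h2 h3 hψ (sub_ne_zero.2 h) _, fun h5 => absurd h5 h⟩

theorem fid_cube (ψ : AddChar F ℂ) {c : F} (hc : c ^ 3 = 1) (k : F) :
    fid ψ (c * k) = fid ψ k := by
  have hc0 : c ≠ 0 := by
    rintro rfl
    norm_num at hc
  by_cases hk : k = 0
  · rw [hk, mul_zero]
  · rw [fid_ne ψ hk, fid_ne ψ (mul_ne_zero hc0 hk), mul_pow, hc, one_mul]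

theorem fid_neg (ψ : AddChar F ℂ) (k : F) : fid ψ (-k) = conj (fid ψ k) := by
  by_cases hk : k = 0
  · rw [hk, neg_zero, fid_zero, Complex.conj_ofReal]
  · rw [fid_ne ψ hk, fid_ne ψ (neg_ne_zero.2 hk), map_mul, Complex.conj_ofReal, conj_char]
    congr 2
    ring

end Pool.Agent.L7h42.Zauner
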