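import Pool.Agent.L7h42.Zauner.ExactRot

/-!
# Equalising the norms of a tight frame by plane rotations: the chain
-/

set_option autoImplicit false

open Finset

namespace Pool.Agent.L7h42.Zauner.Exact

variable {E : Type*} [NormedAddCommGroup E] [InnerProductSpace ℂ E]

/-- numerical bounds for one step -/
lemma one_sub_c {c s θ : ℝ} (hc0 : 0 ≤ c) (h : c ^ 2 + s ^ 2 = 1) (hs0 : 0 ≤ s) (hs : s ≤ θ) :
    |c - 1| ≤ θ ^ 2 ∧ |c| ≤ 1 := by
  have hc1 : c ≤ 1 := by nlinarith [sq_nonneg s]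
  refine ⟨?_, by rw [abs_of_nonneg hc0]; exact hc1⟩
  rw [abs_sub_comm, abs_of_nonneg (by linarith)]
  have h1 : s ^ 2 ≤ θ ^ 2 := pow_le_pow_left₀ hs0 hs 2
  nlinarith

/-- the chain of rotations -/
lemma stage (M : ℕ) (w : ℕ → E) (γ Γ η θ : ℝ) (hγ0 : 0 < γ) (hθ : θ = η / (γ / 2))
    (hη : ∀ i < M, |‖w i‖ ^ 2 - 1| ≤ η)
    (hpre : ∀ k ≤ M, |∑ i ∈ range k, (‖w i‖ ^ 2 - 1)| ≤ η)
    (hlo : ∀ i < M, ∀ j < M, i ≠ j → γ ≤ ‖(inner ℂ (w i) (w j) : ℂ)‖)
    (hhi : ∀ i < M, ∀ j < M, i ≠ j → ‖(inner ℂ (w i) (w j) : ℂ)‖ ≤ Γ)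
    (hθ1 : θ ≤ 1 / 8) (hθγ : 3 * θ * Γ ≤ γ / 2) (hηγ : η ≤ γ / 2) (hηΓ : η ≤ Γ) :
    ∀ k : ℕ, k + 1 ≤ M → ∃ (z : ℕ → E) (u : E),
      (∀ i < k, ‖z i‖ ^ 2 = 1) ∧
      (‖u‖ ^ 2 = 1 + ∑ i ∈ range (k + 1), (‖w i‖ ^ 2 - 1)) ∧
      (∀ y : E, ∑ i ∈ range k, ‖(inner ℂ (z i) y : ℂ)‖ ^ 2 + ‖(inner ℂ u y : ℂ)‖ ^ 2 =
        ∑ i ∈ range (k + 1), ‖(inner ℂ (w i) y : ℂ)‖ ^ 2) ∧
      (∀ j, k < j → j < M → ‖(inner ℂ u (w j) : ℂ) - inner ℂ (w k) (w j)‖ ≤ 3 * θ * Γ) ∧
      (∀ i < k, ‖(inner ℂ (z i) u : ℂ) - inner ℂ (w i) (w k)‖ ≤ 8 * θ * Γ) ∧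
      (∀ i < k, ∀ j, k < j → j < M →
        ‖(inner ℂ (z i) (w j) : ℂ) - inner ℂ (w i) (w j)‖ ≤ 5 * θ * Γ) ∧
      (∀ i < k, ∀ j < k, i ≠ j →
        ‖(inner ℂ (z i) (z j) : ℂ) - inner ℂ (w i) (w j)‖ ≤ 11 * θ * Γ) := by
  intro k
  induction k with
  | zero =>
    intro hM
    refine ⟨fun _ => 0, w 0, fun i hi => absurd hi (Nat.not_lt_zero _), ?_, ?_, ?_,
      fun i hi => absurd hi (Nat.not_lt_zero _), fun i hi => absurd hi (Nat.not_lt_zero _),
      fun i hi => absurd hi (Nat.not_lt_zero _)⟩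
    · rw [zero_add, sum_range_one]
      ring
    · intro y
      rw [zero_add, sum_range_one, range_zero, sum_empty, zero_add]
    · intro j _ _
      rw [sub_self, norm_zero]
      have hη0 : 0 ≤ η := (abs_nonneg _).trans (hη 0 (by omega))
      have hθ0 : 0 ≤ θ := by rw [hθ]; positivity
      have hΓ0 : 0 ≤ Γ := hη0.trans hηΓ
      positivity
  | succ k ih =>
    intro hM
    obtain ⟨z, u, hz, hu, hF, hA, hB, hC, hD⟩ := ih (by omega)
    have hη0 : 0 ≤ η := (abs_nonneg _).trans (hη 0 (by omega))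
    have hθ0 : 0 ≤ θ := by rw [hθ]; positivity
    have hΓ0 : 0 ≤ Γ := hη0.trans hηΓ
    have hθΓ : 0 ≤ θ * Γ := mul_nonneg hθ0 hΓ0
    have hθθ : θ * (θ * Γ) ≤ 1 / 8 * (θ * Γ) := mul_le_mul_of_nonneg_right hθ1 hθΓ
    set s : ℝ := ∑ i ∈ range (k + 1), (‖w i‖ ^ 2 - 1) with hs
    set v : E := w (k + 1) with hv
    -- the inner product of `u` and `v`
    have hA1 := hA (k + 1) (by omega) (by omega)
    have hlo1 := hlo k (by omega) (k + 1) (by omega) (by omega)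
    have hhi1 := hhi k (by omega) (k + 1) (by omega) (by omega)
    have hg1 : γ / 2 ≤ ‖(inner ℂ u v : ℂ)‖ := by
      have h1 : ‖(inner ℂ (w k) v : ℂ)‖ - ‖(inner ℂ u v : ℂ) - inner ℂ (w k) v‖ ≤
          ‖(inner ℂ u v : ℂ)‖ := by
        have h2 := norm_sub_norm_le (inner ℂ (w k) v : ℂ) ((inner ℂ (w k) v : ℂ) - inner ℂ u v)
        rw [sub_sub_cancel, norm_sub_rev (inner ℂ (w k) v : ℂ) (inner ℂ u v)] at h2
        exact h2
      linarith
    have hg2 : ‖(inner ℂ u v : ℂ)‖ ≤ (1 + 3 * θ) * Γ := by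
      have h1 : ‖(inner ℂ u v : ℂ)‖ ≤
          ‖(inner ℂ (w k) v : ℂ)‖ + ‖(inner ℂ u v : ℂ) - inner ℂ (w k) v‖ := by
        have h2 := norm_add_le (inner ℂ (w k) v : ℂ) ((inner ℂ u v : ℂ) - inner ℂ (w k) v)
        rw [add_sub_cancel] at h2
        exact h2
      linarith
    obtain ⟨c, σ, hc0, hcσ, hσ, hunit⟩ := rot u v s (‖v‖ ^ 2 - 1) (γ / 2) η hu (by ring)
      (by linarith) hg1 (hpre (k + 1) (by omega)) (hη (k + 1) (by omega)) hηγ
    rw [← hθ] at hσ
    obtain ⟨hc1, hc2⟩ := one_sub_c hc0 hcσ (norm_nonneg σ) hσ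
    set a : E := (c : ℂ) • u + σ • v with ha
    set b : E := -(starRingEnd ℂ) σ • u + (c : ℂ) • v with hb
    have hθ2 : θ ^ 2 * Γ ≤ 1 / 8 * (θ * Γ) := by
      have : θ ^ 2 * Γ = θ * (θ * Γ) := by ring
      rw [this]
      exact hθθ
    -- general estimate for a product with a factor `σ`
    have hcσ1 : ∀ (p : ℂ) (B : ℝ), ‖p‖ ≤ B → ‖σ * p‖ ≤ θ * B := by
      intro p B hp
      rw [norm_mul]
      exact mul_le_mul hσ hp (norm_nonneg _) hθ0
    have hcσ2 : ∀ (p : ℂ) (B : ℝ), ‖p‖ ≤ B → ‖(starRingEnd ℂ) σ * p‖ ≤ θ * B := by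
      intro p B hp
      rw [norm_mul, RCLike.norm_conj]
      exact mul_le_mul hσ hp (norm_nonneg _) hθ0
    have hcc1 : ∀ (p : ℂ) (B : ℝ), ‖p‖ ≤ B → ‖((c : ℂ) - 1) * p‖ ≤ θ ^ 2 * B := by
      intro p B hp
      rw [norm_mul]
      have : ‖(c : ℂ) - 1‖ = |c - 1| := by
        rw [← Complex.ofReal_one, ← Complex.ofReal_sub, Complex.norm_real, Real.norm_eq_abs]
      rw [this]
      exact mul_le_mul hc1 hp (norm_nonneg _) (sq_nonneg _)
    have hcc2 : ∀ (p : ℂ) (B : ℝ), ‖p‖ ≤ B → ‖(c : ℂ) * p‖ ≤ B := by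
      intro p B hp
      rw [norm_mul, Complex.norm_real, Real.norm_eq_abs]
      calc |c| * ‖p‖ ≤ 1 * ‖p‖ := mul_le_mul_of_nonneg_right hc2 (norm_nonneg _)
        _ = ‖p‖ := one_mul _
        _ ≤ B := hp
    have ina : ∀ y : E, (inner ℂ a y : ℂ) = (c : ℂ) * inner ℂ u y +
        (starRingEnd ℂ) σ * inner ℂ v y := by
      intro y
      rw [ha, inner_add_left, inner_smul_left, inner_smul_left, Complex.conj_ofReal]
    have inb : ∀ y : E, (inner ℂ b y : ℂ) = -(σ * inner ℂ u y) + (c : ℂ) * inner ℂ v y := by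
      intro y
      rw [hb, inner_add_left, inner_smul_left, inner_smul_left, Complex.conj_ofReal, map_neg,
        Complex.conj_conj]
      ring
    have inar : ∀ y : E, (inner ℂ y a : ℂ) = (c : ℂ) * inner ℂ y u + σ * inner ℂ y v := by
      intro y
      rw [ha, inner_add_right, inner_smul_right, inner_smul_right]
    have inbr : ∀ y : E, (inner ℂ y b : ℂ) =
        -((starRingEnd ℂ) σ * inner ℂ y u) + (c : ℂ) * inner ℂ y v := by
      intro y
      rw [hb, inner_add_right, inner_smul_right, inner_smul_right]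
      ring
    -- estimates
    have eA : ∀ j, k + 1 < j → j < M →
        ‖(inner ℂ b (w j) : ℂ) - inner ℂ v (w j)‖ ≤ 3 * θ * Γ := by
      intro j hj hjM
      have e1 : (inner ℂ b (w j) : ℂ) - inner ℂ v (w j) =
          -(σ * (inner ℂ (w k) (w j) + ((inner ℂ u (w j) : ℂ) - inner ℂ (w k) (w j)))) +
            ((c : ℂ) - 1) * inner ℂ v (w j) := by
        rw [inb]
        ring
      rw [e1]
      have h1 := hA j (by omega) hjM
      have h2 := hhi k (by omega) j hjM (by omega)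
      have h3 := hhi (k + 1) (by omega) j hjM (by omega)
      have h4 : ‖(inner ℂ (w k) (w j) : ℂ) + ((inner ℂ u (w j) : ℂ) - inner ℂ (w k) (w j))‖ ≤
          Γ + 3 * θ * Γ := (norm_add_le _ _).trans (add_le_add h2 h1)
      refine (norm_add_le _ _).trans ?_
      rw [norm_neg]
      have h5 := hcσ1 _ _ h4
      have h6 := hcc1 _ _ h3
      have h7 : θ * (Γ + 3 * θ * Γ) = θ * Γ + 3 * (θ * (θ * Γ)) := by ring
      linarith
    have eC : ∀ j, k + 1 < j → j < M →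
        ‖(inner ℂ a (w j) : ℂ) - inner ℂ (w k) (w j)‖ ≤ 5 * θ * Γ := by
      intro j hj hjM
      have e1 : (inner ℂ a (w j) : ℂ) - inner ℂ (w k) (w j) =
          (c : ℂ) * ((inner ℂ u (w j) : ℂ) - inner ℂ (w k) (w j)) +
            ((c : ℂ) - 1) * inner ℂ (w k) (w j) + (starRingEnd ℂ) σ * inner ℂ v (w j) := by
        rw [ina]
        ring
      rw [e1]
      have h1 := hcc2 _ _ (hA j (by omega) hjM)
      have h2 := hcc1 _ _ (hhi k (by omega) j hjM (by omega))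
      have h3 := hcσ2 _ _ (hhi (k + 1) (by omega) j hjM (by omega))
      refine (norm_add₃_le).trans ?_
      linarith
    have eB1 : ∀ i < k, ‖(inner ℂ (z i) b : ℂ) - inner ℂ (w i) v‖ ≤ 8 * θ * Γ := by
      intro i hi
      have e1 : (inner ℂ (z i) b : ℂ) - inner ℂ (w i) v =
          -((starRingEnd ℂ) σ * (inner ℂ (w i) (w k) +
            ((inner ℂ (z i) u : ℂ) - inner ℂ (w i) (w k)))) +
            (c : ℂ) * ((inner ℂ (z i) v : ℂ) - inner ℂ (w i) v) +
            ((c : ℂ) - 1) * inner ℂ (w i) v := by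
        rw [inbr]
        ring
      rw [e1]
      have h1 := hB i hi
      have h2 := hhi i (by omega) k (by omega) (by omega)
      have h3 := hC i hi (k + 1) (by omega) (by omega)
      have h4 := hhi i (by omega) (k + 1) (by omega) (by omega)
      have h5 : ‖(inner ℂ (w i) (w k) : ℂ) + ((inner ℂ (z i) u : ℂ) - inner ℂ (w i) (w k))‖ ≤
          Γ + 8 * θ * Γ := (norm_add_le _ _).trans (add_le_add h2 h1)
      refine (norm_add₃_le).trans ?_
      rw [norm_neg]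
      have h6 := hcσ2 _ _ h5
      have h7 := hcc2 _ _ h3
      have h8 := hcc1 _ _ h4
      have h9 : θ * (Γ + 8 * θ * Γ) = θ * Γ + 8 * (θ * (θ * Γ)) := by ring
      linarith
    have eB2 : ‖(inner ℂ a b : ℂ) - inner ℂ (w k) v‖ ≤ 8 * θ * Γ := by
      have h1 := rot_inner u v c σ hcσ
      have e1 : (inner ℂ a b : ℂ) - inner ℂ (w k) v =
          ((inner ℂ a b : ℂ) - inner ℂ u v) + ((inner ℂ u v : ℂ) - inner ℂ (w k) v) := by ring
      rw [e1]
      refine (norm_add_le _ _).trans ?_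
      have h2 : |‖v‖ ^ 2 - ‖u‖ ^ 2| ≤ 2 * η := by
        have e2 : ‖v‖ ^ 2 - ‖u‖ ^ 2 = (‖v‖ ^ 2 - 1) - s := by rw [hu]; ring
        rw [e2]
        have h3 := hpre (k + 1) (by omega)
        have h4 := hη (k + 1) (by omega)
        refine (abs_sub _ _).trans ?_
        linarith
      have h3 : ‖σ‖ * |‖v‖ ^ 2 - ‖u‖ ^ 2| ≤ θ * (2 * η) :=
        mul_le_mul hσ h2 (abs_nonneg _) hθ0
      have h4 : ‖σ‖ ^ 2 ≤ θ ^ 2 := pow_le_pow_left₀ (norm_nonneg _) hσ 2
      have h5 : ‖σ‖ ^ 2 * ‖(inner ℂ u v : ℂ)‖ ≤ θ ^ 2 * ((1 + 3 * θ) * Γ) :=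
        mul_le_mul h4 hg2 (norm_nonneg _) (sq_nonneg _)
      have h6 : θ * (2 * η) ≤ 2 * (θ * Γ) := by
        have : θ * η ≤ θ * Γ := mul_le_mul_of_nonneg_left hηΓ hθ0
        linarith
      have h7 : θ ^ 2 * ((1 + 3 * θ) * Γ) ≤ 11 / 64 * (θ * Γ) := by
        have e3 : θ ^ 2 * ((1 + 3 * θ) * Γ) = (1 + 3 * θ) * (θ ^ 2 * Γ) := by ring
        rw [e3]
        calc (1 + 3 * θ) * (θ ^ 2 * Γ) ≤ (11 / 8) * (θ ^ 2 * Γ) := by
              apply mul_le_mul_of_nonneg_right _ (by positivity)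
              linarith
          _ ≤ (11 / 8) * (1 / 8 * (θ * Γ)) := mul_le_mul_of_nonneg_left hθ2 (by norm_num)
          _ = 11 / 64 * (θ * Γ) := by ring
      have h8 : ‖(inner ℂ a b : ℂ) - inner ℂ u v‖ ≤ 2 * (θ * Γ) + 2 * (11 / 64 * (θ * Γ)) := by
        refine h1.trans ?_
        have : 2 * ‖σ‖ ^ 2 * ‖(inner ℂ u v : ℂ)‖ = 2 * (‖σ‖ ^ 2 * ‖(inner ℂ u v : ℂ)‖) := by ring
        rw [this]
        linarith
      linarith
    have eD : ∀ i < k, ‖(inner ℂ (z i) a : ℂ) - inner ℂ (w i) (w k)‖ ≤ 11 * θ * Γ := by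
      intro i hi
      have e1 : (inner ℂ (z i) a : ℂ) - inner ℂ (w i) (w k) =
          (c : ℂ) * ((inner ℂ (z i) u : ℂ) - inner ℂ (w i) (w k)) +
            ((c : ℂ) - 1) * inner ℂ (w i) (w k) +
            σ * (inner ℂ (w i) v + ((inner ℂ (z i) v : ℂ) - inner ℂ (w i) v)) := by
        rw [inar]
        ring
      rw [e1]
      have h1 := hcc2 _ _ (hB i hi)
      have h2 := hcc1 _ _ (hhi i (by omega) k (by omega) (by omega))
      have h3 := hC i hi (k + 1) (by omega) (by omega)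
      have h4 := hhi i (by omega) (k + 1) (by omega) (by omega)
      have h5 : ‖(inner ℂ (w i) v : ℂ) + ((inner ℂ (z i) v : ℂ) - inner ℂ (w i) v)‖ ≤
          Γ + 5 * θ * Γ := (norm_add_le _ _).trans (add_le_add h4 h3)
      have h6 := hcσ1 _ _ h5
      refine (norm_add₃_le).trans ?_
      have h9 : θ * (Γ + 5 * θ * Γ) = θ * Γ + 5 * (θ * (θ * Γ)) := by ring
      linarith
    have hzk : Function.update z k a k = a := Function.update_self _ _ _
    have hzi : ∀ i, i ≠ k → Function.update z k a i = z i := fun i hi =>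
      Function.update_of_ne hi _ _
    refine ⟨Function.update z k a, b, ?_, ?_, ?_, eA, ?_, ?_, ?_⟩
    · intro i hi
      rcases Nat.lt_succ_iff_lt_or_eq.mp hi with h | h
      · rw [hzi i h.ne]
        exact hz i h
      · subst h
        rw [hzk]
        exact hunit
    · have h1 := rot_norm u v c σ hcσ
      rw [← ha, ← hb, hunit, hu] at h1
      rw [sum_range_succ, ← hs]
      linarith
    · intro y
      rw [sum_range_succ, sum_range_succ, hzk, add_assoc]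
      have h1 := rot_frame u v y c σ hcσ
      rw [← ha, ← hb] at h1
      rw [h1, ← add_assoc]
      have h2 : ∑ i ∈ range k, ‖(inner ℂ (Function.update z k a i) y : ℂ)‖ ^ 2 =
          ∑ i ∈ range k, ‖(inner ℂ (z i) y : ℂ)‖ ^ 2 := by
        apply sum_congr rfl
        intro i hi
        rw [hzi i (mem_range.mp hi).ne]
      rw [h2, hF y]
    · intro i hi
      rcases Nat.lt_succ_iff_lt_or_eq.mp hi with h | h
      · rw [hzi i h.ne]
        exact eB1 i h
      · subst h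
        rw [hzk]
        exact eB2
    · intro i hi j hj hjM
      rcases Nat.lt_succ_iff_lt_or_eq.mp hi with h | h
      · rw [hzi i h.ne]
        exact hC i h j (by omega) hjM
      · subst h
        rw [hzk]
        exact eC j hj hjM
    · intro i hi j hj hij
      rcases Nat.lt_succ_iff_lt_or_eq.mp hi with h | h
      · rcases Nat.lt_succ_iff_lt_or_eq.mp hj with h' | h'
        · rw [hzi i h.ne, hzi j h'.ne]
          exact hD i h j h' hij
        · subst h'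
          rw [hzi i h.ne, hzk]
          exact eD i h
      · rcases Nat.lt_succ_iff_lt_or_eq.mp hj with h' | h'
        · subst h
          rw [hzi j h'.ne, hzk, ← inner_conj_symm, ← inner_conj_symm (w i) (w j), ← map_sub,
            RCLike.norm_conj]
          exact eD j h'
        · exact absurd (h.trans h'.symm) hij

/-- equalising the norms -/
theorem equalise (M : ℕ) (w : Fin M → E) (γ Γ η : ℝ) (hγ0 : 0 < γ)
    (hη : ∀ i, |‖w i‖ ^ 2 - 1| ≤ η) (hη0 : 0 ≤ η)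
    (hsum : ∑ i, (‖w i‖ ^ 2 - 1) = 0)
    (hlo : ∀ i j, i ≠ j → γ ≤ ‖(inner ℂ (w i) (w j) : ℂ)‖)
    (hhi : ∀ i j, i ≠ j → ‖(inner ℂ (w i) (w j) : ℂ)‖ ≤ Γ)
    (hθ1 : 16 * η ≤ γ) (hθγ : 12 * η * Γ ≤ γ ^ 2) (hηΓ : η ≤ Γ) :
    ∃ (z : Fin M → E) (e : Fin M → Fin M), Function.Injective e ∧
      (∀ i, ‖z i‖ = 1) ∧
      (∀ y, ∑ i, ‖(inner ℂ (z i) y : ℂ)‖ ^ 2 = ∑ i, ‖(inner ℂ (w i) y : ℂ)‖ ^ 2) ∧
      ∀ i j, i ≠ j → ‖(inner ℂ (z i) (z j) : ℂ) - inner ℂ (w (e i)) (w (e j))‖ ≤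
        22 * η * Γ / γ := by
  classical
  rcases Nat.eq_zero_or_pos M with h0 | hMpos
  · subst h0
    refine ⟨w, id, Function.injective_id, fun i => i.elim0, fun y => rfl, fun i => i.elim0⟩
  obtain ⟨l, hl1, hl2, hl3, hl4⟩ := exists_order (fun i => ‖w i‖ ^ 2 - 1) η hη M univ
    (by simp) 0 (by rw [abs_zero]; exact hη0) (by rw [zero_add]; exact hsum)
  -- the ordering as a function
  let e : Fin M → Fin M := fun i => l.get ⟨i, by rw [hl3]; exact i.2⟩
  have he : Function.Injective e := by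
    intro i j hij
    have := (List.nodup_iff_injective_get.mp hl1) hij
    simpa [Fin.ext_iff] using this
  have hebij : Function.Bijective e := Finite.injective_iff_bijective.mp he
  let w' : ℕ → E := fun n => if h : n < M then w (e ⟨n, h⟩) else 0
  have hw' : ∀ n (h : n < M), w' n = w (e ⟨n, h⟩) := fun n h => dif_pos h
  have hpre' : ∀ k ≤ M, ∑ i ∈ range k, (‖w' i‖ ^ 2 - 1) =
      ((l.take k).map (fun i => ‖w i‖ ^ 2 - 1)).sum := by
    intro k
    induction k with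
    | zero => intro _; simp
    | succ k ih =>
      intro hk
      rw [sum_range_succ, ih (by omega), hw' k (by omega)]
      rw [List.take_succ_eq_append_getElem (by rw [hl3]; omega), List.map_append, List.sum_append]
      simp [e]
  have hsumf : ∀ f : E → ℝ, ∑ i ∈ range M, f (w' i) = ∑ i, f (w i) := by
    intro f
    rw [Finset.sum_range]
    have h1 : ∑ i : Fin M, f (w' i) = ∑ i : Fin M, f (w (e i)) := by
      apply sum_congr rfl
      intro i _
      rw [hw' i i.2]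
    rw [h1]
    exact hebij.sum_comp (fun i => f (w i))
  set θ : ℝ := η / (γ / 2) with hθ
  have hθe : θ = 2 * η / γ := by rw [hθ]; field_simp
  have hne : ∀ i (hi : i < M) j (hj : j < M), i ≠ j → e ⟨i, hi⟩ ≠ e ⟨j, hj⟩ := by
    intro i hi j hj hij h
    have := he h
    simp only [Fin.mk.injEq] at this
    exact hij this
  obtain ⟨z, u, hz, hu, hF, -, hB, -, hD⟩ := stage M w' γ Γ η θ hγ0 hθ
    (fun i hi => by rw [hw' i hi]; exact hη _)
    (fun k hk => by
      rw [hpre' k hk]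
      have := hl4 k hk
      rwa [zero_add] at this)
    (fun i hi j hj hij => by rw [hw' i hi, hw' j hj]; exact hlo _ _ (hne i hi j hj hij))
    (fun i hi j hj hij => by rw [hw' i hi, hw' j hj]; exact hhi _ _ (hne i hi j hj hij))
    (by rw [hθe, div_le_iff₀ hγ0]; linarith)
    (by
      rw [hθe]
      have : 3 * (2 * η / γ) * Γ = 6 * η * Γ / γ := by ring
      rw [this, div_le_iff₀ hγ0]
      nlinarith)
    (by linarith) hηΓ (M - 1) (by omega)
  have hM1 : M - 1 + 1 = M := by omega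
  rw [hM1] at hu hF
  have hs0 : ∑ i ∈ range M, (‖w' i‖ ^ 2 - 1) = 0 := by
    rw [hsumf (fun v => ‖v‖ ^ 2 - 1)]
    exact hsum
  rw [hs0, add_zero] at hu
  have hΓ0 : 0 ≤ Γ := hη0.trans hηΓ
  have hθ0 : 0 ≤ θ := by rw [hθ]; positivity
  have hθΓ : 0 ≤ θ * Γ := mul_nonneg hθ0 hΓ0
  have h11 : 11 * θ * Γ = 22 * η * Γ / γ := by rw [hθe]; ring
  let Z : Fin M → E := fun i => if (i : ℕ) < M - 1 then z i else u
  have hZ1 : ∀ i : Fin M, (i : ℕ) < M - 1 → Z i = z i := fun i h => if_pos h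
  have hZ2 : ∀ i : Fin M, ¬ (i : ℕ) < M - 1 → Z i = u := fun i h => if_neg h
  refine ⟨Z, e, he, ?_, ?_, ?_⟩
  · intro i
    by_cases h : (i : ℕ) < M - 1
    · rw [hZ1 i h]
      have := hz i h
      have h0 := norm_nonneg (z i)
      nlinarith
    · rw [hZ2 i h]
      have h0 := norm_nonneg u
      nlinarith
  · intro y
    have h1 : ∑ i : Fin M, ‖(inner ℂ (Z i) y : ℂ)‖ ^ 2 =
        ∑ i ∈ range M, ‖(inner ℂ (if i < M - 1 then z i else u) y : ℂ)‖ ^ 2 := by
      rw [Finset.sum_range]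
    rw [h1]
    have h2 : ∑ i ∈ range M, ‖(inner ℂ (if i < M - 1 then z i else u) y : ℂ)‖ ^ 2 =
        ∑ i ∈ range (M - 1 + 1), ‖(inner ℂ (if i < M - 1 then z i else u) y : ℂ)‖ ^ 2 := by
      rw [hM1]
    rw [h2, sum_range_succ, if_neg (lt_irrefl _)]
    have h3 : ∑ i ∈ range (M - 1), ‖(inner ℂ (if i < M - 1 then z i else u) y : ℂ)‖ ^ 2 =
        ∑ i ∈ range (M - 1), ‖(inner ℂ (z i) y : ℂ)‖ ^ 2 := by
      apply sum_congr rfl
      intro i hi
      rw [if_pos (mem_range.mp hi)]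
    rw [h3, hF y]
    exact hsumf (fun v => ‖(inner ℂ v y : ℂ)‖ ^ 2)
  · intro i j hij
    have hij' : (i : ℕ) ≠ j := fun h => hij (Fin.ext h)
    rw [← h11]
    have hwi := hw' i i.2
    have hwj := hw' j j.2
    simp only [Fin.eta] at hwi hwj
    rw [← hwi, ← hwj]
    by_cases h : (i : ℕ) < M - 1
    · by_cases h' : (j : ℕ) < M - 1
      · rw [hZ1 i h, hZ1 j h']
        exact hD i h j h' hij'
      · have hj : (j : ℕ) = M - 1 := by have := j.2; omega
        rw [hZ1 i h, hZ2 j h']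
        have := hB i h
        rw [← hj] at this
        linarith
    · have hi : (i : ℕ) = M - 1 := by have := i.2; omega
      have h' : (j : ℕ) < M - 1 := by have := j.2; omega
      rw [hZ2 i h, hZ1 j h', ← inner_conj_symm, ← inner_conj_symm (w' i) (w' j), ← map_sub,
        RCLike.norm_conj]
      have := hB j h'
      rw [← hi] at this
      linarith

end Pool.Agent.L7h42.Zauner.Exact
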