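import Pool.Agent.L7h42.Zauner.ExactIC

/-!
# Informationally complete unit norm tight frames are dense: the conclusion
-/

set_option autoImplicit false

open Finset Filter Topology

namespace Pool.Agent.L7h42.Zauner.IC

open Pool.Agent.L7h42.Zauner.Exact

variable {E : Type*} [NormedAddCommGroup E] [InnerProductSpace ℂ E]

lemma trace_rk {N : ℕ} (z : Fin N → E) (a : ℝ)
    (ht : ∀ u, ∑ i, ‖(inner ℂ (z i) u : ℂ)‖ ^ 2 = a * ‖u‖ ^ 2) (T : E →ₗ[ℂ] E) (u v : E) :
    ∑ k, (inner ℂ (z k) (T ((inner ℂ u (z k) : ℂ) • v)) : ℂ) = (a : ℂ) * inner ℂ u (T v) := by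
  have h1 := fop_inner univ z (T v) u
  rw [fop_tight z a ht, inner_smul_right] at h1
  rw [h1]
  refine sum_congr rfl fun k _ => ?_
  rw [map_smul, inner_smul_right]

lemma trace_psi {N : ℕ} (z : Fin N → E) (a : ℝ)
    (ht : ∀ u, ∑ i, ‖(inner ℂ (z i) u : ℂ)‖ ^ 2 = a * ‖u‖ ^ 2) (T : E →ₗ[ℂ] E)
    (hT : ∀ i, (inner ℂ (z i) (T (z i)) : ℂ) = 0) (x : Fin N → ℝ) :
    ∑ k, (inner ℂ (z k) (T (psi z x (z k))) : ℂ) = 0 := by
  have h1 : ∀ k, (inner ℂ (z k) (T (psi z x (z k))) : ℂ) =
      ∑ i, ((x i : ℝ) : ℂ) * inner ℂ (z k) (T ((inner ℂ (z i) (z k) : ℂ) • z i)) := by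
    intro k
    rw [psi, map_sum, inner_sum]
    refine sum_congr rfl fun i _ => ?_
    rw [map_smul, inner_smul_right]
  rw [sum_congr rfl fun k _ => h1 k, sum_comm]
  apply sum_eq_zero
  intro i _
  rw [← mul_sum, trace_rk z a ht, hT, mul_zero, mul_zero]

/-- the commutator of two projections -/
lemma trace_comm {N : ℕ} (z : Fin N → E) (a : ℝ)
    (ht : ∀ u, ∑ i, ‖(inner ℂ (z i) u : ℂ)‖ ^ 2 = a * ‖u‖ ^ 2) (T : E →ₗ[ℂ] E) (i : Fin N)
    (Y : E → E) :
    ∑ k, (inner ℂ (z k) (T ((inner ℂ (z i) (Y (z k)) : ℂ) • z i -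
      (inner ℂ (z i) (z k) : ℂ) • Y (z i))) : ℂ) =
    ∑ k, (inner ℂ (z k) (T ((inner ℂ (z i) (Y (z k)) : ℂ) • z i)) : ℂ) -
      (a : ℂ) * inner ℂ (z i) (T (Y (z i))) := by
  rw [← trace_rk z a ht T (z i) (Y (z i)), ← sum_sub_distrib]
  refine sum_congr rfl fun k _ => ?_
  rw [map_sub, inner_sub_right]

/-- all pairs are separated: the frame is informationally complete -/
lemma ic_of_sep {N : ℕ} (z : Fin N → E) (a : ℝ) (ha : 0 < a)
    (ht : ∀ u, ∑ i, ‖(inner ℂ (z i) u : ℂ)‖ ^ 2 = a * ‖u‖ ^ 2)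
    (hz : ∀ i, ‖z i‖ = 1)
    (h : ∀ i j, i ≠ j → ∀ σ : ℂ, ‖σ‖ = 1 → (σ * inner ℂ (z i) (z j)).re = 0 →
      ∃ x : Fin N → ℝ, ∀ y, xop z i j σ y = psi z x y)
    (T : E →ₗ[ℂ] E) (hT : ∀ i, (inner ℂ (z i) (T (z i)) : ℂ) = 0) : T = 0 := by
  have haC : (a : ℂ) ≠ 0 := by exact_mod_cast ha.ne'
  have hz1 : ∀ i, (inner ℂ (z i) (z i) : ℂ) = 1 := by
    intro i
    rw [inner_self_eq_norm_sq_to_K, hz]
    norm_num
  -- the first relation
  have r1 : ∀ i j, i ≠ j → ∀ σ : ℂ, ‖σ‖ = 1 → (σ * inner ℂ (z i) (z j)).re = 0 →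
      σ * inner ℂ (z i) (T (z j)) + (starRingEnd ℂ) σ * inner ℂ (z j) (T (z i)) = 0 := by
    intro i j hij σ hσ hre
    obtain ⟨x, hx⟩ := h i j hij σ hσ hre
    have e1 := trace_psi z a ht T hT x
    have e2 : ∀ k, (inner ℂ (z k) (T (psi z x (z k))) : ℂ) =
        σ * inner ℂ (z k) (T ((inner ℂ (z i) (z k) : ℂ) • z j)) +
        (starRingEnd ℂ) σ * inner ℂ (z k) (T ((inner ℂ (z j) (z k) : ℂ) • z i)) := by
      intro k
      rw [← hx, xop, map_add, inner_add_right, mul_smul, mul_smul, map_smul T σ,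
        map_smul T ((starRingEnd ℂ) σ), inner_smul_right, inner_smul_right]
    rw [sum_congr rfl fun k _ => e2 k, sum_add_distrib, ← mul_sum, ← mul_sum, trace_rk z a ht,
      trace_rk z a ht] at e1
    have e3 : (a : ℂ) * (σ * inner ℂ (z i) (T (z j)) +
        (starRingEnd ℂ) σ * inner ℂ (z j) (T (z i))) = 0 := by
      rw [← e1]
      ring
    exact (mul_eq_zero.mp e3).resolve_left haC
  -- the commutators of the projections
  have r2 : ∀ i k, (inner ℂ (z i) (z k) : ℂ) * inner ℂ (z k) (T (z i)) =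
      inner ℂ (z k) (z i) * inner ℂ (z i) (T (z k)) := by
    intro i k
    by_cases hik : i = k
    · rw [hik]
    · obtain ⟨σ, hσ, hre⟩ := exists_phase (inner ℂ (z i) (z k))
      have e1 := r1 i k hik σ hσ hre
      rw [← inner_conj_symm (z k) (z i)]
      set g : ℂ := inner ℂ (z i) (z k)
      by_cases hg : g = 0
      · rw [hg, map_zero, zero_mul, zero_mul]
      · have hσ0 : σ ≠ 0 := by
          intro h0
          rw [h0, norm_zero] at hσ
          exact zero_ne_one hσ
        have hσg : σ * g ≠ 0 := mul_ne_zero hσ0 hg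
        have e2 : (starRingEnd ℂ) σ * (starRingEnd ℂ) g = -(σ * g) := by
          rw [← map_mul]
          apply Complex.ext
          · rw [Complex.conj_re, Complex.neg_re, hre, neg_zero]
          · rw [Complex.conj_im, Complex.neg_im]
        have e3 : (σ * g) * (g * inner ℂ (z k) (T (z i)) -
            (starRingEnd ℂ) g * inner ℂ (z i) (T (z k))) = 0 := by
          linear_combination (g * inner ℂ (z k) (T (z i))) * e2 +
            (- (g * (starRingEnd ℂ) g)) * e1
        exact sub_eq_zero.mp ((mul_eq_zero.mp e3).resolve_left hσg)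
  -- the second relation
  have r3 : ∀ i j, i ≠ j → (inner ℂ (z i) (T (z j)) : ℂ) = 0 := by
    intro i j hij
    obtain ⟨σ, hσ, hre⟩ := exists_phase (inner ℂ (z i) (z j))
    obtain ⟨x, hx⟩ := h i j hij σ hσ hre
    have e1 := r1 i j hij σ hσ hre
    -- the trace of the commutator, from the expansion in the projections
    have c1 := trace_comm z a ht T i (psi z x)
    have c2 : ∑ k, (inner ℂ (z k) (T ((inner ℂ (z i) (psi z x (z k)) : ℂ) • z i)) : ℂ) =
        ∑ m, ((x m : ℝ) : ℂ) * ((a : ℂ) * (inner ℂ (z i) (z m) * inner ℂ (z m) (T (z i)))) := by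
      have d1 : ∀ k, (inner ℂ (z k) (T ((inner ℂ (z i) (psi z x (z k)) : ℂ) • z i)) : ℂ) =
          ∑ m, ((x m : ℝ) : ℂ) * (inner ℂ (z i) (z m) *
            inner ℂ (z k) (T ((inner ℂ (z m) (z k) : ℂ) • z i))) := by
        intro k
        rw [psi, inner_sum, map_smul, inner_smul_right, sum_mul]
        refine sum_congr rfl fun m _ => ?_
        rw [inner_smul_right, inner_smul_right, map_smul, inner_smul_right]
        ring
      rw [sum_congr rfl fun k _ => d1 k, sum_comm]
      refine sum_congr rfl fun m _ => ?_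
      rw [← mul_sum, ← mul_sum, trace_rk z a ht]
      ring
    have c3 : (a : ℂ) * inner ℂ (z i) (T (psi z x (z i))) =
        ∑ m, ((x m : ℝ) : ℂ) * ((a : ℂ) * (inner ℂ (z m) (z i) * inner ℂ (z i) (T (z m)))) := by
      rw [psi, map_sum, inner_sum, mul_sum]
      refine sum_congr rfl fun m _ => ?_
      rw [map_smul, inner_smul_right, map_smul, inner_smul_right]
      ring
    have c4 : ∑ k, (inner ℂ (z k) (T ((inner ℂ (z i) (psi z x (z k)) : ℂ) • z i -
        (inner ℂ (z i) (z k) : ℂ) • psi z x (z i))) : ℂ) = 0 := by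
      rw [c1, c2, c3, ← sum_sub_distrib]
      apply sum_eq_zero
      intro m _
      rw [r2 i m]
      ring
    -- the trace of the commutator, from the definition
    have c5 : ∀ k, (inner ℂ (z k) (T ((inner ℂ (z i) (psi z x (z k)) : ℂ) • z i -
        (inner ℂ (z i) (z k) : ℂ) • psi z x (z i))) : ℂ) =
        (σ * inner ℂ (z i) (z j) - (starRingEnd ℂ) σ * inner ℂ (z j) (z i)) *
          inner ℂ (z k) (T ((inner ℂ (z i) (z k) : ℂ) • z i)) +
        (starRingEnd ℂ) σ * inner ℂ (z k) (T ((inner ℂ (z j) (z k) : ℂ) • z i)) -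
        σ * inner ℂ (z k) (T ((inner ℂ (z i) (z k) : ℂ) • z j)) := by
      intro k
      rw [← hx, ← hx, xop, xop]
      simp only [inner_add_right, inner_smul_right, map_sub, map_add, map_smul, inner_sub_right,
        hz1]
      ring
    rw [sum_congr rfl fun k _ => c5 k, sum_sub_distrib, sum_add_distrib, ← mul_sum, ← mul_sum,
      ← mul_sum, trace_rk z a ht, trace_rk z a ht, trace_rk z a ht, hT] at c4
    have e2 : (a : ℂ) * ((starRingEnd ℂ) σ * inner ℂ (z j) (T (z i)) -
        σ * inner ℂ (z i) (T (z j))) = 0 := by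
      rw [← c4]
      ring
    have e3 := (mul_eq_zero.mp e2).resolve_left haC
    have hσ0 : σ ≠ 0 := by
      intro h0
      rw [h0, norm_zero] at hσ
      exact zero_ne_one hσ
    have e4 : σ * ((2 : ℂ) * inner ℂ (z i) (T (z j))) = 0 := by
      linear_combination e1 - e3
    have e5 := (mul_eq_zero.mp e4).resolve_left hσ0
    exact (mul_eq_zero.mp e5).resolve_left two_ne_zero
  have hTz : ∀ j, T (z j) = 0 := by
    intro j
    have e1 := ht (T (z j))
    have e2 : ∑ i, ‖(inner ℂ (z i) (T (z j)) : ℂ)‖ ^ 2 = 0 := by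
      apply sum_eq_zero
      intro i _
      by_cases hij : i = j
      · rw [hij, hT, norm_zero]
        norm_num
      · rw [r3 i j hij, norm_zero]
        norm_num
    rw [e2] at e1
    have e3 : ‖T (z j)‖ ^ 2 = 0 := (mul_eq_zero.mp e1.symm).resolve_left ha.ne'
    exact norm_eq_zero.mp (pow_eq_zero_iff (two_ne_zero) |>.mp e3)
  apply LinearMap.ext
  intro y
  have e1 := fop_tight z a ht y
  rw [fop_apply] at e1
  have e2 : (a : ℂ) • T y = 0 := by
    rw [← map_smul, ← e1, map_sum]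
    apply sum_eq_zero
    intro i _
    rw [map_smul, hTz, smul_zero]
  exact (smul_eq_zero.mp e2).resolve_left haC

/-- no relations: the frame is informationally complete -/
lemma ic_of_indep [FiniteDimensional ℂ E] {N : ℕ} (hN : N = Module.finrank ℂ E ^ 2)
    (z : Fin N → E) (a : ℝ) (ha : 0 < a)
    (ht : ∀ u, ∑ i, ‖(inner ℂ (z i) u : ℂ)‖ ^ 2 = a * ‖u‖ ^ 2) (h : rel z = ⊥)
    (T : E →ₗ[ℂ] E) (hT : ∀ i, (inner ℂ (z i) (T (z i)) : ℂ) = 0) : T = 0 := by
  have haC : (a : ℂ) ≠ 0 := by exact_mod_cast ha.ne'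
  let R : E → E → (E →ₗ[ℂ] E) := fun u v =>
    { toFun := fun y => (inner ℂ u y : ℂ) • v
      map_add' := by
        intro y y'
        rw [inner_add_right, add_smul]
      map_smul' := by
        intro t y
        rw [inner_smul_right, mul_smul, RingHom.id_apply] }
  have hR : ∀ u v y, R u v y = (inner ℂ u y : ℂ) • v := fun _ _ _ => rfl
  have hli : LinearIndependent ℂ (fun i => R (z i) (z i)) := by
    rw [Fintype.linearIndependent_iff]
    intro g hg
    have h1 : ∀ y, ∑ i, g i • ((inner ℂ (z i) y : ℂ) • z i) = 0 := by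
      intro y
      have := LinearMap.congr_fun hg y
      rw [LinearMap.sum_apply] at this
      simpa [hR] using this
    have h2 : ∀ y, ∑ i, (starRingEnd ℂ) (g i) • ((inner ℂ (z i) y : ℂ) • z i) = 0 := by
      intro y
      apply ext_inner_left ℂ
      intro w
      rw [inner_zero_right, inner_sum]
      have h3 : (inner ℂ y (∑ i, g i • ((inner ℂ (z i) w : ℂ) • z i)) : ℂ) = 0 := by
        rw [h1, inner_zero_right]
      rw [inner_sum] at h3
      have h4 := congrArg (starRingEnd ℂ) h3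
      rw [map_zero, map_sum] at h4
      rw [← h4]
      refine sum_congr rfl fun i _ => ?_
      rw [inner_smul_right, inner_smul_right, inner_smul_right, inner_smul_right, map_mul, map_mul,
        inner_conj_symm, inner_conj_symm]
      ring
    have h5 : (fun i => (g i).re) ∈ rel z := by
      intro y
      have : (2 : ℂ) • psi z (fun i => (g i).re) y = 0 := by
        rw [psi, smul_sum]
        have e : ∑ i, (2 : ℂ) • (((g i).re : ℝ) : ℂ) • ((inner ℂ (z i) y : ℂ) • z i) =
            ∑ i, g i • ((inner ℂ (z i) y : ℂ) • z i) +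
            ∑ i, (starRingEnd ℂ) (g i) • ((inner ℂ (z i) y : ℂ) • z i) := by
          rw [← sum_add_distrib]
          refine sum_congr rfl fun i _ => ?_
          rw [← add_smul, Complex.add_conj, smul_smul]
          push_cast
          rfl
        rw [e, h1, h2, add_zero]
      exact (smul_eq_zero.mp this).resolve_left two_ne_zero
    have h6 : (fun i => (g i).im) ∈ rel z := by
      intro y
      have : ((2 : ℂ) * Complex.I) • psi z (fun i => (g i).im) y = 0 := by
        rw [psi, smul_sum]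
        have e : ∑ i, ((2 : ℂ) * Complex.I) • (((g i).im : ℝ) : ℂ) •
            ((inner ℂ (z i) y : ℂ) • z i) =
            ∑ i, g i • ((inner ℂ (z i) y : ℂ) • z i) -
            ∑ i, (starRingEnd ℂ) (g i) • ((inner ℂ (z i) y : ℂ) • z i) := by
          rw [← sum_sub_distrib]
          refine sum_congr rfl fun i _ => ?_
          rw [← sub_smul, Complex.sub_conj, smul_smul]
          push_cast
          congr 1
          ring
        rw [e, h1, h2, sub_zero]
      exact (smul_eq_zero.mp this).resolve_left (mul_ne_zero two_ne_zero Complex.I_ne_zero)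
    rw [h, Submodule.mem_bot] at h5 h6
    intro i
    apply Complex.ext
    · exact congrFun h5 i
    · exact congrFun h6 i
  have hspan : Submodule.span ℂ (Set.range fun i => R (z i) (z i)) = ⊤ := by
    apply hli.span_eq_top_of_card_eq_finrank'
    rw [Fintype.card_fin, Module.finrank_linearMap, hN, sq]
  let F : (E →ₗ[ℂ] E) →ₗ[ℂ] ℂ :=
    { toFun := fun A => ∑ k, (inner ℂ (z k) (T (A (z k))) : ℂ)
      map_add' := by
        intro A A'
        rw [← sum_add_distrib]
        refine sum_congr rfl fun k _ => ?_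
        rw [LinearMap.add_apply, map_add, inner_add_right]
      map_smul' := by
        intro t A
        rw [RingHom.id_apply, smul_eq_mul, mul_sum]
        refine sum_congr rfl fun k _ => ?_
        rw [LinearMap.smul_apply, map_smul, inner_smul_right] }
  have hF : F = 0 := by
    apply LinearMap.ext_on_range hspan
    intro i
    rw [LinearMap.zero_apply]
    show ∑ k, (inner ℂ (z k) (T (R (z i) (z i) (z k))) : ℂ) = 0
    simp only [hR]
    rw [trace_rk z a ht, hT, mul_zero]
  apply LinearMap.ext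
  intro v
  apply ext_inner_left ℂ
  intro u
  have h1 : F (R u v) = 0 := by rw [hF]; rfl
  have h2 : F (R u v) = (a : ℂ) * inner ℂ u (T v) := trace_rk z a ht T u v
  rw [h1] at h2
  rw [LinearMap.zero_apply, inner_zero_right]
  exact (mul_eq_zero.mp h2.symm).resolve_left haC

/-- informationally complete frames are dense among the unit norm tight frames of `d ^ 2` vectors
in dimension `d` -/
theorem dense_ic [FiniteDimensional ℂ E] {N : ℕ} (hN : N = Module.finrank ℂ E ^ 2)
    (z₀ : Fin N → E) (a : ℝ) (ha : 0 < a) (hz₀ : ∀ i, ‖z₀ i‖ = 1)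
    (ht₀ : ∀ u, ∑ i, ‖(inner ℂ (z₀ i) u : ℂ)‖ ^ 2 = a * ‖u‖ ^ 2) (ε : ℝ) (hε : 0 < ε) :
    ∃ z : Fin N → E, (∀ i, ‖z i‖ = 1) ∧
      (∀ u, ∑ i, ‖(inner ℂ (z i) u : ℂ)‖ ^ 2 = a * ‖u‖ ^ 2) ∧
      (∀ i, ‖z i - z₀ i‖ < ε) ∧
      ∀ T : E →ₗ[ℂ] E, (∀ i, (inner ℂ (z i) (T (z i)) : ℂ) = 0) → T = 0 := by
  classical
  let B : Set (Fin N → E) := {z | (∀ i, ‖z i‖ = 1) ∧
      (∀ u, ∑ i, ‖(inner ℂ (z i) u : ℂ)‖ ^ 2 = a * ‖u‖ ^ 2) ∧ (∀ i, ‖z i - z₀ i‖ < ε)}
  have hne : B.Nonempty := ⟨z₀, hz₀, ht₀, fun i => by rw [sub_self, norm_zero]; exact hε⟩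
  have hB : ∀ z ∈ B, ∀ i j, i ≠ j → ∀ σ : ℂ, ‖σ‖ = 1 → (σ * inner ℂ (z i) (z j)).re = 0 →
      ∀ᶠ θ in 𝓝 (0 : ℝ), rt z i j σ θ ∈ B := by
    rintro z ⟨hz1, hz2, hz3⟩ i j hij σ hσ hre
    have h1 : ∀ᶠ θ in 𝓝 (0 : ℝ), ∀ k, ‖rt z i j σ θ k - z₀ k‖ < ε := by
      rw [eventually_all]
      intro k
      have hc : Continuous fun θ => ‖rt z i j σ θ k - z₀ k‖ :=
        ((rt_cont z i j σ k).sub continuous_const).norm
      have h0 : ‖rt z i j σ 0 k - z₀ k‖ < ε := by
        rw [rt_zero]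
        exact hz3 k
      exact hc.continuousAt.eventually_lt continuousAt_const h0
    filter_upwards [h1] with θ hθ
    exact ⟨fun k => rt_norm z hij σ hσ θ hz1 hre k,
      fun u => by rw [rt_frame z hij σ hσ θ u]; exact hz2 u, hθ⟩
  obtain ⟨z, ⟨hz1, hz2, hz3⟩, hk1, hk2⟩ := key B hne hB
  refine ⟨z, hz1, hz2, hz3, fun T hT => ?_⟩
  by_cases hrel : rel z = ⊥
  · exact ic_of_indep hN z a ha hz2 hrel T hT
  · obtain ⟨c, hc, hc0⟩ := Submodule.exists_mem_ne_zero_of_ne_bot hrel
    have hex : ∃ i j, c i ≠ c j := by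
      by_contra hcon
      push Not at hcon
      apply hc0
      funext i
      have e1 := hc (z i)
      have e2 : psi z c (z i) = ((c i : ℝ) : ℂ) • ((a : ℂ) • z i) := by
        rw [← fop_tight z a hz2, fop_apply, psi, smul_sum]
        refine sum_congr rfl fun k _ => ?_
        rw [hcon k i]
      rw [e2, smul_smul] at e1
      have e3 : z i ≠ 0 := by
        intro h0
        have := hz1 i
        rw [h0, norm_zero] at this
        exact zero_ne_one this
      have e4 := (smul_eq_zero.mp e1).resolve_right e3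
      have haC : (a : ℂ) ≠ 0 := by exact_mod_cast ha.ne'
      have e5 := (mul_eq_zero.mp e4).resolve_right haC
      exact_mod_cast e5
    obtain ⟨i, j, hij⟩ := hex
    have hs : sep z i j := ⟨c, hc, hij⟩
    have hall : ∀ k l, k ≠ l → sep z k l := by
      intro k l hkl
      by_cases hki : k = i
      · subst hki
        exact hk2 k j hs l (Ne.symm hkl)
      · obtain ⟨b, hb, hbk⟩ := hk2 i j hs k hki
        exact hk2 k i ⟨b, hb, Ne.symm hbk⟩ l (Ne.symm hkl)
    exact ic_of_sep z a ha hz2 hz1 (fun k l hkl σ hσ hre => hk1 k l (hall k l hkl) σ hσ hre) T hT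

end Pool.Agent.L7h42.Zauner.IC
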