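import Mathlib

/-!
# Equalising the norms of a tight frame by plane rotations

Let `w 0, ..., w (M-1)` be vectors with norms close to one and with all inner products of moduli
between `γ` and `Γ`. If the sum of the numbers `‖w i‖² - 1` is zero, and all its partial sums are
small, there are unit vectors with the same frame operator and almost the same inner products.
-/

set_option autoImplicit false

open Finset

namespace Pool.Agent.L7h42.Zauner.Exact

/-- an ordering with bounded partial sums -/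
lemma exists_order {ι : Type*} [DecidableEq ι] (ε : ι → ℝ) (η : ℝ) (hη : ∀ i, |ε i| ≤ η) :
    ∀ (n : ℕ) (T : Finset ι), T.card = n → ∀ a : ℝ, |a| ≤ η → a + ∑ i ∈ T, ε i = 0 →
      ∃ l : List ι, l.Nodup ∧ l.toFinset = T ∧ l.length = n ∧
        ∀ k ≤ n, |a + ((l.take k).map ε).sum| ≤ η := by
  intro n
  induction n with
  | zero =>
    intro T hT a ha _
    refine ⟨[], List.nodup_nil, ?_, rfl, fun k _ => by simpa using ha⟩
    rw [card_eq_zero] at hT
    rw [hT]
    rfl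
  | succ n ih =>
    intro T hT a ha hs
    have hne : T.Nonempty := card_pos.mp (by omega)
    have key : ∃ i ∈ T, |a + ε i| ≤ η := by
      rcases le_or_gt 0 a with h0 | h0
      · have : ∃ i ∈ T, ε i ≤ 0 := by
          by_contra hcon
          push Not at hcon
          have := sum_pos hcon hne
          linarith
        obtain ⟨i, hi, hle⟩ := this
        refine ⟨i, hi, ?_⟩
        have h1 := abs_le.mp ha
        have h2 := abs_le.mp (hη i)
        rw [abs_le]
        constructor <;> linarith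
      · have : ∃ i ∈ T, 0 ≤ ε i := by
          by_contra hcon
          push Not at hcon
          have := sum_neg hcon hne
          linarith
        obtain ⟨i, hi, hle⟩ := this
        refine ⟨i, hi, ?_⟩
        have h1 := abs_le.mp ha
        have h2 := abs_le.mp (hη i)
        rw [abs_le]
        constructor <;> linarith
    obtain ⟨i, hi, hle⟩ := key
    have hc : (T.erase i).card = n := by
      rw [card_erase_of_mem hi, hT]
      rfl
    have hs' : (a + ε i) + ∑ j ∈ T.erase i, ε j = 0 := by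
      have := add_sum_erase T ε hi
      linarith
    obtain ⟨l, h1, h2, h3, h4⟩ := ih (T.erase i) hc (a + ε i) hle hs'
    refine ⟨i :: l, ?_, ?_, ?_, ?_⟩
    · rw [List.nodup_cons]
      refine ⟨fun hmem => ?_, h1⟩
      have : i ∈ l.toFinset := List.mem_toFinset.mpr hmem
      rw [h2] at this
      exact (notMem_erase i T) this
    · rw [List.toFinset_cons, h2, insert_erase hi]
    · rw [List.length_cons, h3]
    · intro k hk
      cases k with
      | zero => simpa using ha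
      | succ k =>
        have := h4 k (by omega)
        rw [List.take_succ_cons, List.map_cons, List.sum_cons, ← add_assoc]
        exact this

variable {E : Type*} [NormedAddCommGroup E] [InnerProductSpace ℂ E]

/-- a rotation in the plane of two vectors which makes the first one a unit vector -/
lemma rot (u w : E) (a b γ η : ℝ) (hu : ‖u‖ ^ 2 = 1 + a) (hw : ‖w‖ ^ 2 = 1 + b)
    (hγ0 : 0 < γ) (hγ : γ ≤ ‖(inner ℂ u w : ℂ)‖) (ha : |a| ≤ η) (hb : |b| ≤ η) (hη : η ≤ γ) :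
    ∃ (c : ℝ) (σ : ℂ), 0 ≤ c ∧ c ^ 2 + ‖σ‖ ^ 2 = 1 ∧ ‖σ‖ ≤ η / γ ∧
      ‖(c : ℂ) • u + σ • w‖ ^ 2 = 1 := by
  set g : ℝ := ‖(inner ℂ u w : ℂ)‖ with hg
  have hg0 : 0 < g := lt_of_lt_of_le hγ0 hγ
  have hη0 : 0 ≤ η := (abs_nonneg a).trans ha
  have hab : a * b ≤ g ^ 2 := by
    calc a * b ≤ |a * b| := le_abs_self _
      _ = |a| * |b| := abs_mul _ _
      _ ≤ η * η := mul_le_mul ha hb (abs_nonneg _) hη0
      _ ≤ g * g := mul_le_mul (hη.trans hγ) (hη.trans hγ) hη0 hg0.le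
      _ = g ^ 2 := (sq g).symm
  set r : ℝ := √(g ^ 2 - a * b) with hr
  have hr0 : 0 ≤ r := Real.sqrt_nonneg _
  have hr2 : r ^ 2 = g ^ 2 - a * b := Real.sq_sqrt (by linarith)
  have hgr : 0 < g + r := by linarith
  set t : ℝ := -a / (g + r) with ht
  have hta : t * (g + r) = -a := by
    rw [ht]
    field_simp
  have hquad : b * t ^ 2 + 2 * g * t + a = 0 := by
    have h1 : (b * t ^ 2 + 2 * g * t + a) * (g + r) ^ 2 = 0 := by
      have h2 : (b * t ^ 2 + 2 * g * t + a) * (g + r) ^ 2 =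
          b * (t * (g + r)) ^ 2 + 2 * g * (t * (g + r)) * (g + r) + a * (g + r) ^ 2 := by ring
      rw [h2, hta]
      have h3 : b * (-a) ^ 2 + 2 * g * -a * (g + r) + a * (g + r) ^ 2 =
          a * (a * b - g ^ 2 + r ^ 2) := by ring
      rw [h3, hr2]
      ring
    rcases mul_eq_zero.mp h1 with h | h
    · exact h
    · exact absurd h (by positivity)
  have htle : |t| ≤ η / γ := by
    rw [ht, abs_div, abs_neg, abs_of_pos hgr]
    exact div_le_div₀ hη0 ha hγ0 (by linarith)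
  have h1t : 0 < 1 + t ^ 2 := by positivity
  set c : ℝ := 1 / √(1 + t ^ 2) with hc
  have hsq : 0 < √(1 + t ^ 2) := Real.sqrt_pos.mpr h1t
  have hc0 : 0 < c := by positivity
  have hc2 : c ^ 2 * (1 + t ^ 2) = 1 := by
    rw [hc, div_pow, one_pow, Real.sq_sqrt h1t.le]
    field_simp
  have hc1 : c ≤ 1 := by
    have : c ^ 2 ≤ 1 := by nlinarith [sq_nonneg (c * t)]
    nlinarith
  have hin : (inner ℂ u w : ℂ) ≠ 0 := by
    intro h
    rw [hg, h, norm_zero] at hg0
    exact lt_irrefl _ hg0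
  set ζ : ℂ := (starRingEnd ℂ) (inner ℂ u w : ℂ) / (g : ℂ) with hζ
  have hζn : ‖ζ‖ = 1 := by
    rw [hζ, norm_div, RCLike.norm_conj, Complex.norm_real, Real.norm_of_nonneg hg0.le, ← hg]
    field_simp
  have hgC : (g : ℂ) ≠ 0 := by exact_mod_cast hg0.ne'
  have hζg : ζ * (inner ℂ u w : ℂ) = (g : ℂ) := by
    rw [hζ, div_mul_eq_mul_div, Complex.conj_mul', ← hg]
    field_simp
  refine ⟨c, (c * t : ℝ) * ζ, hc0.le, ?_, ?_, ?_⟩
  · rw [norm_mul, hζn, Complex.norm_real, mul_one, Real.norm_eq_abs, sq_abs]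
    linarith [hc2]
  · rw [norm_mul, hζn, Complex.norm_real, mul_one, Real.norm_eq_abs, abs_mul, abs_of_pos hc0]
    calc c * |t| ≤ 1 * |t| := mul_le_mul_of_nonneg_right hc1 (abs_nonneg _)
      _ = |t| := one_mul _
      _ ≤ η / γ := htle
  · rw [norm_add_sq (𝕜 := ℂ), norm_smul, norm_smul, inner_smul_left, inner_smul_right, mul_pow,
      mul_pow, hu, hw, norm_mul, hζn, Complex.norm_real, Complex.norm_real, mul_one,
      Real.norm_eq_abs, Real.norm_eq_abs, sq_abs, sq_abs, Complex.conj_ofReal, mul_assoc _ ζ, hζg]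
    have h1 : RCLike.re ((c : ℂ) * (((c * t : ℝ) : ℂ) * (g : ℂ))) = c * (c * t * g) := by
      rw [← Complex.ofReal_mul, ← Complex.ofReal_mul]
      exact Complex.ofReal_re _
    rw [h1]
    have h2 : c ^ 2 * (1 + a) + 2 * (c * (c * t * g)) + (c * t) ^ 2 * (1 + b) =
        c ^ 2 * (1 + t ^ 2) + c ^ 2 * (b * t ^ 2 + 2 * g * t + a) := by ring
    rw [h2, hquad, hc2]
    ring

/-- a plane rotation preserves the frame operator -/
lemma rot_frame (u w y : E) (c : ℝ) (σ : ℂ) (h : c ^ 2 + ‖σ‖ ^ 2 = 1) :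
    ‖(inner ℂ ((c : ℂ) • u + σ • w) y : ℂ)‖ ^ 2 +
      ‖(inner ℂ (-(starRingEnd ℂ) σ • u + (c : ℂ) • w) y : ℂ)‖ ^ 2 =
    ‖(inner ℂ u y : ℂ)‖ ^ 2 + ‖(inner ℂ w y : ℂ)‖ ^ 2 := by
  rw [inner_add_left, inner_add_left, inner_smul_left, inner_smul_left, inner_smul_left,
    inner_smul_left, map_neg, Complex.conj_conj, Complex.conj_ofReal]
  set p : ℂ := inner ℂ u y
  set q : ℂ := inner ℂ w y
  rw [Complex.sq_norm, Complex.normSq_apply] at h
  rw [Complex.sq_norm, Complex.sq_norm, Complex.sq_norm, Complex.sq_norm, Complex.normSq_apply,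
    Complex.normSq_apply, Complex.normSq_apply, Complex.normSq_apply]
  simp only [Complex.add_re, Complex.add_im, Complex.mul_re, Complex.mul_im, Complex.neg_re,
    Complex.neg_im, Complex.conj_re, Complex.conj_im, Complex.ofReal_re, Complex.ofReal_im]
  linear_combination (p.re * p.re + p.im * p.im + (q.re * q.re + q.im * q.im)) * h

/-- a plane rotation preserves the sum of the squares of the norms -/
lemma rot_norm (u w : E) (c : ℝ) (σ : ℂ) (h : c ^ 2 + ‖σ‖ ^ 2 = 1) :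
    ‖(c : ℂ) • u + σ • w‖ ^ 2 + ‖-(starRingEnd ℂ) σ • u + (c : ℂ) • w‖ ^ 2 =
    ‖u‖ ^ 2 + ‖w‖ ^ 2 := by
  rw [norm_add_sq (𝕜 := ℂ), norm_add_sq (𝕜 := ℂ), norm_smul, norm_smul, norm_smul, norm_smul,
    inner_smul_left, inner_smul_left, inner_smul_right, inner_smul_right, norm_neg,
    RCLike.norm_conj, map_neg, Complex.conj_conj, Complex.conj_ofReal, Complex.norm_real,
    Real.norm_eq_abs]
  have h1 : RCLike.re (-σ * ((c : ℂ) * (inner ℂ u w : ℂ))) =
      -RCLike.re ((c : ℂ) * (σ * (inner ℂ u w : ℂ))) := by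
    rw [← map_neg]
    congr 1
    ring
  rw [h1, mul_pow, mul_pow, mul_pow, mul_pow, sq_abs]
  linear_combination (‖u‖ ^ 2 + ‖w‖ ^ 2) * h

/-- the inner product of the rotated vectors -/
lemma rot_inner (u w : E) (c : ℝ) (σ : ℂ) (h : c ^ 2 + ‖σ‖ ^ 2 = 1) :
    ‖(inner ℂ ((c : ℂ) • u + σ • w) (-(starRingEnd ℂ) σ • u + (c : ℂ) • w) : ℂ) -
      (inner ℂ u w : ℂ)‖ ≤
    ‖σ‖ * |‖w‖ ^ 2 - ‖u‖ ^ 2| + 2 * ‖σ‖ ^ 2 * ‖(inner ℂ u w : ℂ)‖ := by
  have hc : |c| ≤ 1 := by
    rw [abs_le_one_iff_mul_self_le_one]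
    nlinarith [sq_nonneg ‖σ‖]
  have hσ : (starRingEnd ℂ) σ * σ = ((‖σ‖ ^ 2 : ℝ) : ℂ) := by
    rw [Complex.conj_mul', Complex.ofReal_pow]
  have huu : (inner ℂ u u : ℂ) = ((‖u‖ ^ 2 : ℝ) : ℂ) := by
    rw [inner_self_eq_norm_sq_to_K]
    norm_cast
  have hww : (inner ℂ w w : ℂ) = ((‖w‖ ^ 2 : ℝ) : ℂ) := by
    rw [inner_self_eq_norm_sq_to_K]
    norm_cast
  have hcc : ((c : ℂ)) ^ 2 = 1 - ((‖σ‖ ^ 2 : ℝ) : ℂ) := by
    have : c ^ 2 = 1 - ‖σ‖ ^ 2 := by linarith
    exact_mod_cast this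
  have h1 : (inner ℂ ((c : ℂ) • u + σ • w) (-(starRingEnd ℂ) σ • u + (c : ℂ) • w) : ℂ) -
      (inner ℂ u w : ℂ) =
      (starRingEnd ℂ) σ * c * ((‖w‖ ^ 2 - ‖u‖ ^ 2 : ℝ) : ℂ) -
        ((‖σ‖ ^ 2 : ℝ) : ℂ) * (inner ℂ u w : ℂ) -
        (starRingEnd ℂ) σ * (starRingEnd ℂ) σ * (inner ℂ w u : ℂ) := by
    rw [inner_add_left, inner_add_right, inner_add_right, inner_smul_left, inner_smul_left,
      inner_smul_left, inner_smul_left, inner_smul_right, inner_smul_right, inner_smul_right,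
      inner_smul_right, Complex.conj_ofReal, huu, hww]
    push_cast
    push_cast at hcc
    linear_combination (inner ℂ u w : ℂ) * hcc
  rw [h1]
  refine (norm_sub_le _ _).trans ?_
  refine (add_le_add_left (norm_sub_le _ _) _).trans ?_
  rw [norm_mul, norm_mul, norm_mul, norm_mul, norm_mul, RCLike.norm_conj, Complex.norm_real,
    Complex.norm_real, Complex.norm_real, norm_inner_symm w u]
  simp only [Real.norm_eq_abs]
  rw [abs_of_nonneg (sq_nonneg ‖σ‖)]
  have h2 : ‖σ‖ * |c| * |‖w‖ ^ 2 - ‖u‖ ^ 2| ≤ ‖σ‖ * |‖w‖ ^ 2 - ‖u‖ ^ 2| := by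
    apply mul_le_mul_of_nonneg_right _ (abs_nonneg _)
    exact mul_le_of_le_one_right (norm_nonneg _) hc
  nlinarith [h2]

end Pool.Agent.L7h42.Zauner.Exact
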