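import Pool.Agent.L7h42.Zauner.ExactSelect
import Pool.Agent.L7h42.Zauner.ExactRot

/-!
# Informationally complete unit norm tight frames are dense

Every finite unit norm tight frame of `d ^ 2` vectors in dimension `d` is a limit of
informationally complete ones. The proof moves inside the set of unit norm tight frames by plane
rotations, first minimising the dimension of the space of linear relations between the projections
and then maximising the number of pairs of indices separated by the relations.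
-/

set_option autoImplicit false

open Finset Filter Topology

namespace Pool.Agent.L7h42.Zauner.IC

variable {E : Type*} [NormedAddCommGroup E] [InnerProductSpace ℂ E]
variable {ι : Type*} [Fintype ι] [DecidableEq ι]

/-- a real combination of the projections on the vectors `z i`, at `y` -/
noncomputable def psi (z : ι → E) (c : ι → ℝ) (y : E) : E :=
  ∑ i, ((c i : ℝ) : ℂ) • ((inner ℂ (z i) y : ℂ) • z i)

lemma psi_add (z : ι → E) (a b : ι → ℝ) (y : E) : psi z (a + b) y = psi z a y + psi z b y := by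
  simp only [psi, ← sum_add_distrib]
  refine sum_congr rfl fun i _ => ?_
  rw [Pi.add_apply, Complex.ofReal_add, add_smul]

lemma psi_smul (z : ι → E) (t : ℝ) (a : ι → ℝ) (y : E) :
    psi z (t • a) y = (t : ℂ) • psi z a y := by
  simp only [psi, smul_sum]
  refine sum_congr rfl fun i _ => ?_
  rw [Pi.smul_apply, smul_eq_mul, Complex.ofReal_mul, mul_smul]

lemma psi_single (z : ι → E) (i : ι) (y : E) :
    psi z (Pi.single i 1) y = (inner ℂ (z i) y : ℂ) • z i := by
  rw [psi, sum_eq_single i]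
  · rw [Pi.single_eq_same, Complex.ofReal_one, one_smul]
  · intro j _ hj
    rw [Pi.single_eq_of_ne hj, Complex.ofReal_zero, zero_smul]
  · intro h
    exact absurd (mem_univ i) h

/-- the space of relations between the projections -/
def rel (z : ι → E) : Submodule ℝ (ι → ℝ) where
  carrier := {c | ∀ y, psi z c y = 0}
  add_mem' := by
    intro a b ha hb y
    rw [psi_add, ha y, hb y, add_zero]
  zero_mem' := by
    intro y
    simp [psi]
  smul_mem' := by
    intro t a ha y
    rw [psi_smul, ha y, smul_zero]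

lemma mem_rel {z : ι → E} {c : ι → ℝ} : c ∈ rel z ↔ ∀ y, psi z c y = 0 := Iff.rfl

/-- rotation of the vectors `z i` and `z j` -/
noncomputable def rt (z : ι → E) (i j : ι) (σ : ℂ) (θ : ℝ) : ι → E := fun k =>
  if k = i then ((Real.cos θ : ℝ) : ℂ) • z i + (((Real.sin θ : ℝ) : ℂ) * σ) • z j
  else if k = j then -(starRingEnd ℂ) (((Real.sin θ : ℝ) : ℂ) * σ) • z i +
    ((Real.cos θ : ℝ) : ℂ) • z j
  else z k

/-- the operator which appears in the rotation -/
noncomputable def xop (z : ι → E) (i j : ι) (σ : ℂ) (y : E) : E :=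
  (σ * inner ℂ (z i) y) • z j + ((starRingEnd ℂ) σ * inner ℂ (z j) y) • z i

lemma psi_rt (z : ι → E) {i j : ι} (hij : i ≠ j) (σ : ℂ) (hσ : ‖σ‖ = 1) (θ : ℝ) (a : ι → ℝ)
    (y : E) :
    psi (rt z i j σ θ) a y = psi z a y + ((a i - a j : ℝ) : ℂ) •
      (-(((Real.sin θ) ^ 2 : ℝ) : ℂ) • (psi z (Pi.single i 1) y - psi z (Pi.single j 1) y) +
        ((Real.cos θ * Real.sin θ : ℝ) : ℂ) • xop z i j σ y) := by
  have hji : j ≠ i := Ne.symm hij
  have h1 : ∀ w : ι → E, psi w a y = ((a i : ℝ) : ℂ) • ((inner ℂ (w i) y : ℂ) • w i) +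
      ((a j : ℝ) : ℂ) • ((inner ℂ (w j) y : ℂ) • w j) +
      ∑ k ∈ (univ.erase i).erase j, ((a k : ℝ) : ℂ) • ((inner ℂ (w k) y : ℂ) • w k) := by
    intro w
    rw [psi, ← add_sum_erase univ _ (mem_univ i),
      ← add_sum_erase (univ.erase i) _ (mem_erase.mpr ⟨hji, mem_univ j⟩), add_assoc]
  rw [h1, h1 z]
  have h2 : ∑ k ∈ (univ.erase i).erase j,
      ((a k : ℝ) : ℂ) • ((inner ℂ (rt z i j σ θ k) y : ℂ) • rt z i j σ θ k) =
      ∑ k ∈ (univ.erase i).erase j, ((a k : ℝ) : ℂ) • ((inner ℂ (z k) y : ℂ) • z k) := by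
    refine sum_congr rfl fun k hk => ?_
    rw [mem_erase, mem_erase] at hk
    have : rt z i j σ θ k = z k := by
      rw [rt, if_neg hk.2.1, if_neg hk.1]
    rw [this]
  rw [h2, psi_single, psi_single]
  have e1 : rt z i j σ θ i =
      ((Real.cos θ : ℝ) : ℂ) • z i + (((Real.sin θ : ℝ) : ℂ) * σ) • z j := by
    rw [rt, if_pos rfl]
  have e2 : rt z i j σ θ j = -(starRingEnd ℂ) (((Real.sin θ : ℝ) : ℂ) * σ) • z i +
      ((Real.cos θ : ℝ) : ℂ) • z j := by
    rw [rt, if_neg hji, if_pos rfl]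
  rw [e1, e2, xop, inner_add_left, inner_add_left, inner_smul_left, inner_smul_left,
    inner_smul_left, inner_smul_left, map_neg, Complex.conj_conj, Complex.conj_ofReal, map_mul,
    Complex.conj_ofReal]
  have hσ2 : σ * (starRingEnd ℂ) σ = 1 := by
    rw [Complex.mul_conj', hσ]
    norm_num
  have hcs : ((Real.cos θ : ℝ) : ℂ) ^ 2 = 1 - ((Real.sin θ : ℝ) : ℂ) ^ 2 := by
    have := Real.cos_sq' θ
    exact_mod_cast this
  set p : ℂ := inner ℂ (z i) y
  set q : ℂ := inner ℂ (z j) y
  generalize Real.cos θ = c at *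
  generalize Real.sin θ = s at *
  set R : E := ∑ k ∈ (univ.erase i).erase j, ((a k : ℝ) : ℂ) • ((inner ℂ (z k) y : ℂ) • z k)
  push_cast
  match_scalars
  · linear_combination ((a i : ℂ) * p) * hcs + ((a j : ℂ) * (s : ℂ) ^ 2 * p) * hσ2
  · linear_combination ((a i : ℂ) * (s : ℂ) ^ 2 * q) * hσ2 + ((a j : ℂ) * q) * hcs
  · ring

/-- the norms are preserved by an allowed rotation -/
lemma rt_norm (z : ι → E) {i j : ι} (hij : i ≠ j) (σ : ℂ) (hσ : ‖σ‖ = 1) (θ : ℝ)
    (hz : ∀ k, ‖z k‖ = 1) (hre : (σ * inner ℂ (z i) (z j)).re = 0) (k : ι) :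
    ‖rt z i j σ θ k‖ = 1 := by
  have hji : j ≠ i := Ne.symm hij
  have hcs : (Real.cos θ) ^ 2 + ‖((Real.sin θ : ℝ) : ℂ) * σ‖ ^ 2 = 1 := by
    rw [norm_mul, hσ, mul_one, Complex.norm_real, Real.norm_eq_abs, sq_abs]
    exact Real.cos_sq_add_sin_sq θ
  have h1 : ‖((Real.cos θ : ℝ) : ℂ) • z i + (((Real.sin θ : ℝ) : ℂ) * σ) • z j‖ ^ 2 = 1 := by
    rw [norm_add_sq (𝕜 := ℂ), norm_smul, norm_smul, hz, hz, mul_one, mul_one, inner_smul_left,
      inner_smul_right, Complex.conj_ofReal, Complex.norm_real, Real.norm_eq_abs, sq_abs]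
    have e1 : RCLike.re (((Real.cos θ : ℝ) : ℂ) * (((Real.sin θ : ℝ) : ℂ) * σ *
        inner ℂ (z i) (z j))) = Real.cos θ * (Real.sin θ * (σ * inner ℂ (z i) (z j)).re) := by
      rw [mul_assoc ((Real.sin θ : ℝ) : ℂ)]
      show (((Real.cos θ : ℝ) : ℂ) * (((Real.sin θ : ℝ) : ℂ) * (σ * inner ℂ (z i) (z j)))).re = _
      rw [Complex.re_ofReal_mul, Complex.re_ofReal_mul]
    rw [e1, hre, mul_zero, mul_zero, mul_zero, add_zero]
    exact hcs
  have h2 := Pool.Agent.L7h42.Zauner.Exact.rot_norm (z i) (z j) (Real.cos θ)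
    (((Real.sin θ : ℝ) : ℂ) * σ) hcs
  rw [h1, hz, hz] at h2
  by_cases hki : k = i
  · rw [rt, if_pos hki]
    have h0 := norm_nonneg (((Real.cos θ : ℝ) : ℂ) • z i + (((Real.sin θ : ℝ) : ℂ) * σ) • z j)
    nlinarith
  · by_cases hkj : k = j
    · rw [rt, if_neg hki, if_pos hkj]
      have h0 := norm_nonneg (-(starRingEnd ℂ) (((Real.sin θ : ℝ) : ℂ) * σ) • z i +
        ((Real.cos θ : ℝ) : ℂ) • z j)
      nlinarith
    · rw [rt, if_neg hki, if_neg hkj]
      exact hz k

/-- the frame operator is preserved by a rotation -/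
lemma rt_frame (z : ι → E) {i j : ι} (hij : i ≠ j) (σ : ℂ) (hσ : ‖σ‖ = 1) (θ : ℝ) (y : E) :
    ∑ k, ‖(inner ℂ (rt z i j σ θ k) y : ℂ)‖ ^ 2 = ∑ k, ‖(inner ℂ (z k) y : ℂ)‖ ^ 2 := by
  have hji : j ≠ i := Ne.symm hij
  have hcs : (Real.cos θ) ^ 2 + ‖((Real.sin θ : ℝ) : ℂ) * σ‖ ^ 2 = 1 := by
    rw [norm_mul, hσ, mul_one, Complex.norm_real, Real.norm_eq_abs, sq_abs]
    exact Real.cos_sq_add_sin_sq θ
  have h1 : ∀ w : ι → E, ∑ k, ‖(inner ℂ (w k) y : ℂ)‖ ^ 2 =
      ‖(inner ℂ (w i) y : ℂ)‖ ^ 2 + ‖(inner ℂ (w j) y : ℂ)‖ ^ 2 +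
      ∑ k ∈ (univ.erase i).erase j, ‖(inner ℂ (w k) y : ℂ)‖ ^ 2 := by
    intro w
    rw [← add_sum_erase univ _ (mem_univ i),
      ← add_sum_erase (univ.erase i) _ (mem_erase.mpr ⟨hji, mem_univ j⟩), add_assoc]
  rw [h1, h1 z]
  have e1 : rt z i j σ θ i =
      ((Real.cos θ : ℝ) : ℂ) • z i + (((Real.sin θ : ℝ) : ℂ) * σ) • z j := by
    rw [rt, if_pos rfl]
  have e2 : rt z i j σ θ j = -(starRingEnd ℂ) (((Real.sin θ : ℝ) : ℂ) * σ) • z i +
      ((Real.cos θ : ℝ) : ℂ) • z j := by
    rw [rt, if_neg hji, if_pos rfl]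
  rw [e1, e2, Pool.Agent.L7h42.Zauner.Exact.rot_frame _ _ _ _ _ hcs]
  congr 1
  refine sum_congr rfl fun k hk => ?_
  rw [mem_erase, mem_erase] at hk
  have : rt z i j σ θ k = z k := by
    rw [rt, if_neg hk.2.1, if_neg hk.1]
  rw [this]

lemma rt_zero (z : ι → E) {i j : ι} (σ : ℂ) (k : ι) : rt z i j σ 0 k = z k := by
  rw [rt]
  split_ifs with h1 h2
  · rw [Real.cos_zero, Real.sin_zero, h1]
    simp
  · rw [Real.cos_zero, Real.sin_zero, h2]
    simp
  · rfl

lemma rt_cont (z : ι → E) (i j : ι) (σ : ℂ) (k : ι) : Continuous fun θ => rt z i j σ θ k := by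
  unfold rt
  by_cases h1 : k = i
  · simp only [h1, if_true]
    apply Continuous.add
    · apply Continuous.smul _ continuous_const
      exact Complex.continuous_ofReal.comp Real.continuous_cos
    · apply Continuous.smul _ continuous_const
      exact (Complex.continuous_ofReal.comp Real.continuous_sin).mul continuous_const
  · simp only [h1, if_false]
    by_cases h2 : k = j
    · simp only [h2, if_true]
      apply Continuous.add
      · apply Continuous.smul _ continuous_const
        apply Continuous.neg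
        apply Complex.continuous_conj.comp
        exact (Complex.continuous_ofReal.comp Real.continuous_sin).mul continuous_const
      · apply Continuous.smul _ continuous_const
        exact Complex.continuous_ofReal.comp Real.continuous_cos
    · simp only [h2, if_false]
      exact continuous_const

/-- an allowed phase exists -/
lemma exists_phase (g : ℂ) : ∃ σ : ℂ, ‖σ‖ = 1 ∧ (σ * g).re = 0 := by
  by_cases hg : g = 0
  · exact ⟨1, norm_one, by rw [hg]; simp⟩
  · have hn : ‖g‖ ≠ 0 := norm_ne_zero_iff.mpr hg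
    refine ⟨Complex.I * ((starRingEnd ℂ) g / (‖g‖ : ℂ)), ?_, ?_⟩
    · rw [norm_mul, Complex.norm_I, one_mul, norm_div, RCLike.norm_conj, Complex.norm_real,
        Real.norm_of_nonneg (norm_nonneg _), div_self hn]
    · have : Complex.I * ((starRingEnd ℂ) g / (‖g‖ : ℂ)) * g = Complex.I * (‖g‖ : ℂ) := by
        have h1 : (starRingEnd ℂ) g * g = (‖g‖ : ℂ) ^ 2 := Complex.conj_mul' g
        have h2 : (‖g‖ : ℂ) ≠ 0 := by exact_mod_cast hn
        field_simp
        linear_combination h1
      rw [this]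
      simp

lemma psi_neg (z : ι → E) (a : ι → ℝ) (y : E) : psi z (-a) y = -psi z a y := by
  have h := psi_smul z (-1) a y
  rw [neg_one_smul] at h
  rw [h]
  push_cast
  rw [neg_one_smul]

lemma psi_sub (z : ι → E) (a b : ι → ℝ) (y : E) : psi z (a - b) y = psi z a y - psi z b y := by
  rw [sub_eq_add_neg, psi_add, psi_neg, sub_eq_add_neg]

/-- a pair of indices is separated by the relations -/
def sep (z : ι → E) (i j : ι) : Prop := ∃ c ∈ rel z, c i ≠ c j

open Classical in
/-- the number of separated pairs -/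
noncomputable def nsep (z : ι → E) : ℕ := (univ.filter fun p : ι × ι => sep z p.1 p.2).card

/-- the quantity to be minimised -/
noncomputable def mu (z : ι → E) : ℕ :=
  Module.finrank ℝ (rel z) * (Fintype.card (ι × ι) + 1) + (Fintype.card (ι × ι) - nsep z)

lemma nsep_le (z : ι → E) : nsep z ≤ Fintype.card (ι × ι) := by
  rw [nsep]
  exact card_le_univ _

lemma mu_lt {z z' : ι → E} (h : Module.finrank ℝ (rel z') < Module.finrank ℝ (rel z)) :
    mu z' < mu z := by
  unfold mu
  have h1 : Module.finrank ℝ (rel z') * (Fintype.card (ι × ι) + 1) + (Fintype.card (ι × ι) + 1) ≤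
      Module.finrank ℝ (rel z) * (Fintype.card (ι × ι) + 1) := by
    rw [← Nat.succ_mul]
    exact Nat.mul_le_mul_right _ h
  omega

/-- a small positive angle with any eventual property for both signs -/
lemma exists_angle {P : ℝ → Prop} (h : ∀ᶠ θ in 𝓝 (0 : ℝ), P θ) :
    ∃ θ : ℝ, 0 < Real.sin θ ∧ 0 < Real.cos θ ∧ P θ ∧ P (-θ) := by
  obtain ⟨ε, hε, hP⟩ := Metric.eventually_nhds_iff.mp h
  have hpi := Real.pi_gt_three
  refine ⟨min (ε / 2) 1, ?_, ?_, ?_, ?_⟩
  · apply Real.sin_pos_of_pos_of_lt_pi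
    · positivity
    · linarith [min_le_right (ε / 2) 1]
  · apply Real.cos_pos_of_mem_Ioo
    constructor
    · have : 0 < min (ε / 2) 1 := by positivity
      linarith
    · linarith [min_le_right (ε / 2) 1]
  · apply hP
    rw [Real.dist_eq, sub_zero, abs_of_pos (by positivity)]
    linarith [min_le_left (ε / 2) 1]
  · apply hP
    rw [Real.dist_eq, sub_zero, abs_neg, abs_of_pos (by positivity)]
    linarith [min_le_left (ε / 2) 1]

theorem key (B : Set (ι → E)) (hne : B.Nonempty)
    (hB : ∀ z ∈ B, ∀ i j, i ≠ j → ∀ σ : ℂ, ‖σ‖ = 1 → (σ * inner ℂ (z i) (z j)).re = 0 →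
      ∀ᶠ θ in 𝓝 (0 : ℝ), rt z i j σ θ ∈ B) :
    ∃ z ∈ B, (∀ i j, sep z i j → ∀ σ : ℂ, ‖σ‖ = 1 → (σ * inner ℂ (z i) (z j)).re = 0 →
        ∃ x : ι → ℝ, ∀ y, xop z i j σ y = psi z x y) ∧
      (∀ i j, sep z i j → ∀ l, l ≠ i → sep z i l) := by
  classical
  obtain ⟨z, hzB, hmin'⟩ := (measure (mu (ι := ι) (E := E))).wf.has_min B hne
  have hmin : ∀ z' ∈ B, mu z ≤ mu z' := fun z' hz' => not_lt.mp (hmin' z' hz')
  have hne' : ∀ i j, sep z i j → i ≠ j := by
    rintro i j ⟨c, -, hc⟩ h
    exact hc (by rw [h])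
  have claim1 : ∀ i j, sep z i j → ∀ σ : ℂ, ‖σ‖ = 1 → (σ * inner ℂ (z i) (z j)).re = 0 →
      ∃ x : ι → ℝ, ∀ y, xop z i j σ y = psi z x y := by
    intro i j hs σ hσ hre
    have hij := hne' i j hs
    by_contra hcon
    obtain ⟨θ, hsin, hcos, hθ, -⟩ := exists_angle (hB z hzB i j hij σ hσ hre)
    have heq : ∀ a ∈ rel (rt z i j σ θ), a i = a j ∧ a ∈ rel z := by
      intro a ha
      have h1 : ∀ y, psi z a y + ((a i - a j : ℝ) : ℂ) •
          (-(((Real.sin θ) ^ 2 : ℝ) : ℂ) • (psi z (Pi.single i 1) y - psi z (Pi.single j 1) y) +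
            ((Real.cos θ * Real.sin θ : ℝ) : ℂ) • xop z i j σ y) = 0 := by
        intro y
        rw [← psi_rt z hij σ hσ θ a y]
        exact ha y
      have h2 : a i = a j := by
        by_contra hne2
        apply hcon
        have hd : a i - a j ≠ 0 := sub_ne_zero.mpr hne2
        have hcs : Real.cos θ * Real.sin θ ≠ 0 := by positivity
        refine ⟨-(1 / (Real.cos θ * Real.sin θ)) • ((1 / (a i - a j)) • a -
          (Real.sin θ) ^ 2 • (Pi.single i 1 - Pi.single j 1)), fun y => ?_⟩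
        rw [psi_smul, psi_sub, psi_smul, psi_smul, psi_sub]
        have h3 := h1 y
        have hdC : ((a i - a j : ℝ) : ℂ) ≠ 0 := by exact_mod_cast hd
        have hcsC : ((Real.cos θ * Real.sin θ : ℝ) : ℂ) ≠ 0 := by exact_mod_cast hcs
        set P : E := psi z a y
        set Q : E := psi z (Pi.single i 1) y - psi z (Pi.single j 1) y
        set X : E := xop z i j σ y
        set u : ℝ := a i - a j
        set v : ℝ := Real.cos θ * Real.sin θ
        set r : ℝ := Real.sin θ ^ 2
        have h4 : P = -((u : ℂ) • (-(r : ℂ) • Q + (v : ℂ) • X)) := eq_neg_of_add_eq_zero_left h3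
        rw [h4]
        push_cast
        match_scalars <;> (field_simp; try ring)
      refine ⟨h2, fun y => ?_⟩
      have h3 := h1 y
      rw [h2, sub_self, Complex.ofReal_zero, zero_smul, add_zero] at h3
      exact h3
    have hlt : rel (rt z i j σ θ) < rel z := by
      refine lt_of_le_of_ne (fun a ha => (heq a ha).2) ?_
      intro h
      obtain ⟨c, hc, hc'⟩ := hs
      rw [← h] at hc
      exact hc' (heq c hc).1
    have h4 := mu_lt (Submodule.finrank_lt_finrank_of_lt hlt)
    exact absurd (hmin _ hθ) (not_le.mpr h4)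
  refine ⟨z, hzB, claim1, ?_⟩
  intro i j hs l hli
  have hij := hne' i j hs
  by_contra hnl
  obtain ⟨σ, hσ, hre⟩ := exists_phase (inner ℂ (z i) (z j))
  obtain ⟨x, hx⟩ := claim1 i j hs σ hσ hre
  -- the coefficients of the increment
  let δ : ℝ → ι → ℝ := fun θ => -(Real.sin θ) ^ 2 • (Pi.single i 1 - Pi.single j 1) +
    (Real.cos θ * Real.sin θ) • x
  have hδ : ∀ θ k, δ θ k = -(Real.sin θ) ^ 2 * ((Pi.single i 1 : ι → ℝ) k -
      (Pi.single j 1 : ι → ℝ) k) + (Real.cos θ * Real.sin θ) * x k := by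
    intro θ k
    simp [δ]
  have hδ0 : ∀ k, δ 0 k = 0 := by
    intro k
    rw [hδ, Real.sin_zero]
    ring
  have hδc : ∀ k, Continuous fun θ => δ θ k := by
    intro k
    simp only [hδ]
    exact ((Real.continuous_sin.pow 2).neg.mul continuous_const).add
      ((Real.continuous_cos.mul Real.continuous_sin).mul continuous_const)
  have hpsi : ∀ θ a y, psi (rt z i j σ θ) a y = psi z (a + (a i - a j) • δ θ) y := by
    intro θ a y
    rw [psi_rt z hij σ hσ θ a y, psi_add, psi_smul, hx y]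
    simp only [δ]
    rw [psi_add, psi_smul, psi_smul, psi_sub]
    push_cast
    rfl
  -- the transported relations
  have htr : ∀ θ, ∀ a ∈ rel z, (1 + δ θ i - δ θ j) • a - (a i - a j) • δ θ ∈
      rel (rt z i j σ θ) := by
    intro θ a ha y
    rw [hpsi]
    have e1 : (1 + δ θ i - δ θ j) • a - (a i - a j) • δ θ +
        (((1 + δ θ i - δ θ j) • a - (a i - a j) • δ θ) i -
          ((1 + δ θ i - δ θ j) • a - (a i - a j) • δ θ) j) • δ θ =
        (1 + δ θ i - δ θ j) • a := by
      funext k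
      simp only [Pi.add_apply, Pi.sub_apply, Pi.smul_apply, smul_eq_mul]
      ring
    rw [e1, psi_smul, ha y, smul_zero]
  -- small angles
  have hev1 : ∀ᶠ θ in 𝓝 (0 : ℝ), 1 + δ θ i - δ θ j ≠ 0 := by
    have hc : Continuous fun θ => 1 + δ θ i - δ θ j :=
      (continuous_const.add (hδc i)).sub (hδc j)
    apply hc.continuousAt.eventually_ne
    rw [hδ0, hδ0]
    norm_num
  have hev2 : ∀ᶠ θ in 𝓝 (0 : ℝ), ∀ p : ι × ι, sep z p.1 p.2 → sep (rt z i j σ θ) p.1 p.2 := by
    rw [eventually_all]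
    rintro ⟨k, m⟩
    by_cases hkm : sep z k m
    · obtain ⟨a, ha, hakm⟩ := hkm
      have hc : Continuous fun θ => ((1 + δ θ i - δ θ j) • a - (a i - a j) • δ θ) k -
          ((1 + δ θ i - δ θ j) • a - (a i - a j) • δ θ) m := by
        simp only [Pi.sub_apply, Pi.smul_apply, smul_eq_mul]
        have h1 := hδc i
        have h2 := hδc j
        have h3 := hδc k
        have h4 := hδc m
        fun_prop
      have h1 : ∀ᶠ θ in 𝓝 (0 : ℝ), ((1 + δ θ i - δ θ j) • a - (a i - a j) • δ θ) k -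
          ((1 + δ θ i - δ θ j) • a - (a i - a j) • δ θ) m ≠ 0 := by
        apply hc.continuousAt.eventually_ne
        simp only [Pi.sub_apply, Pi.smul_apply, smul_eq_mul, hδ0]
        intro h
        apply hakm
        linarith
      filter_upwards [h1] with θ hθ _
      exact ⟨_, htr θ a ha, sub_ne_zero.mp hθ⟩
    · exact Eventually.of_forall fun θ h => absurd h hkm
  obtain ⟨θ, hsin, hcos, hθ, hθ'⟩ := exists_angle
    ((hB z hzB i j hij σ hσ hre).and (hev1.and hev2))
  -- the main point: `δ θ i = δ θ l`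
  have hmain : ∀ θ : ℝ, rt z i j σ θ ∈ B → 1 + δ θ i - δ θ j ≠ 0 →
      (∀ p : ι × ι, sep z p.1 p.2 → sep (rt z i j σ θ) p.1 p.2) → δ θ i = δ θ l := by
    intro θ h1 h2 h3
    -- the dimension of the space of relations does not go up
    have hfr : Module.finrank ℝ (rel (rt z i j σ θ)) ≤ Module.finrank ℝ (rel z) := by
      let Lm : (ι → ℝ) →ₗ[ℝ] (ι → ℝ) :=
        { toFun := fun a => a + (a i - a j) • δ θ
          map_add' := by
            intro a b
            funext k
            simp only [Pi.add_apply, Pi.smul_apply, smul_eq_mul]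
            ring
          map_smul' := by
            intro t a
            funext k
            simp only [Pi.add_apply, Pi.smul_apply, smul_eq_mul, RingHom.id_apply]
            ring }
      have hL : ∀ a ∈ rel (rt z i j σ θ), Lm a ∈ rel z := by
        intro a ha y
        have := ha y
        rw [hpsi] at this
        exact this
      apply LinearMap.finrank_le_finrank_of_injective (f := Lm.restrict hL)
      rw [← LinearMap.ker_eq_bot, LinearMap.ker_eq_bot']
      rintro ⟨a, ha⟩ h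
      have h4 : a + (a i - a j) • δ θ = 0 := congrArg Subtype.val h
      have h5 := congrFun h4 i
      have h6 := congrFun h4 j
      simp only [Pi.add_apply, Pi.smul_apply, smul_eq_mul, Pi.zero_apply] at h5 h6
      have h7 : (a i - a j) * (1 + δ θ i - δ θ j) = 0 := by linarith
      have h8 : a i - a j = 0 := (mul_eq_zero.mp h7).resolve_right h2
      rw [h8, zero_smul, add_zero] at h4
      exact Subtype.ext h4
    have hmu := hmin _ h1
    have hfr' : Module.finrank ℝ (rel (rt z i j σ θ)) = Module.finrank ℝ (rel z) := by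
      by_contra hcon
      exact absurd hmu (not_le.mpr (mu_lt (lt_of_le_of_ne hfr hcon)))
    have hns : nsep (rt z i j σ θ) ≤ nsep z := by
      unfold mu at hmu
      rw [hfr'] at hmu
      have := nsep_le (rt z i j σ θ)
      have := nsep_le z
      omega
    have hsub : (univ.filter fun p : ι × ι => sep z p.1 p.2) ⊆
        (univ.filter fun p : ι × ι => sep (rt z i j σ θ) p.1 p.2) := by
      intro p hp
      rw [mem_filter] at hp ⊢
      exact ⟨mem_univ _, h3 p hp.2⟩
    have heq : (univ.filter fun p : ι × ι => sep z p.1 p.2) =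
        (univ.filter fun p : ι × ι => sep (rt z i j σ θ) p.1 p.2) := by
      apply eq_of_subset_of_card_le hsub
      unfold nsep at hns
      convert hns
    have hnl' : ¬ sep (rt z i j σ θ) i l := by
      intro h
      apply hnl
      have : (i, l) ∈ (univ.filter fun p : ι × ι => sep z p.1 p.2) := by
        rw [heq, mem_filter]
        exact ⟨mem_univ _, h⟩
      exact (mem_filter.mp this).2
    obtain ⟨a, ha, haij⟩ := hs
    have e1 : a i = a l := by
      by_contra hc
      exact hnl ⟨a, ha, hc⟩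
    have e2 : ((1 + δ θ i - δ θ j) • a - (a i - a j) • δ θ) i =
        ((1 + δ θ i - δ θ j) • a - (a i - a j) • δ θ) l := by
      by_contra hc
      exact hnl' ⟨_, htr θ a ha, hc⟩
    simp only [Pi.sub_apply, Pi.smul_apply, smul_eq_mul] at e2
    rw [← e1] at e2
    have e3 : (a i - a j) * (δ θ i - δ θ l) = 0 := by linarith
    have e4 := (mul_eq_zero.mp e3).resolve_left (sub_ne_zero.mpr haij)
    linarith
  have m1 := hmain θ hθ.1 hθ.2.1 hθ.2.2
  have m2 := hmain (-θ) hθ'.1 hθ'.2.1 hθ'.2.2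
  have hlj : l ≠ j := by
    intro h
    rw [h] at hnl
    exact hnl hs
  have s1 : (Pi.single i 1 : ι → ℝ) i = 1 := Pi.single_eq_same _ _
  have s2 : (Pi.single j 1 : ι → ℝ) i = 0 := Pi.single_eq_of_ne hij _
  have s3 : (Pi.single i 1 : ι → ℝ) l = 0 := Pi.single_eq_of_ne hli _
  have s4 : (Pi.single j 1 : ι → ℝ) l = 0 := Pi.single_eq_of_ne hlj _
  rw [hδ, hδ, s1, s2, s3, s4] at m1 m2
  rw [Real.sin_neg, Real.cos_neg] at m2
  have : 0 < (Real.sin θ) ^ 2 := by positivity
  nlinarith

end Pool.Agent.L7h42.Zauner.IC
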