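import Pool.Agent.L7h42.Zauner.ExactSelect
import Pool.Agent.L7h42.Zauner.ExactChain
import Pool.Agent.Y387.AP.Main

/-!
# Exactly `d ^ 2` unit vectors, exactly tight and nearly equiangular
-/

set_option autoImplicit false

open Finset

namespace Pool.Agent.L7h42.Zauner.Exact

/-- the entries of the error operator -/
lemma entries (d N : ℕ) (s : ℝ) (hs : s ^ 2 = d) (hs0 : 1728 ≤ s)
    (x : Fin N → EuclideanSpace ℂ (Fin d)) (hN : d ^ 2 ≤ N) (hx : ∀ i, ‖x i‖ = 1)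
    (hhi : ∀ i j, i ≠ j → ‖(inner ℂ (x i) (x j) : ℂ)‖ ≤ 2 / s)
    (ht : ∀ u, ∑ i, ‖(inner ℂ (x i) u : ℂ)‖ ^ 2 = ((N : ℝ) / d) * ‖u‖ ^ 2)
    (L : ℝ) (hL : Real.log (2 * (2 * (N : ℝ) ^ 2 + 1)) ≤ L)
    (hR : ((N : ℝ) - d ^ 2) * L ≤ (d : ℝ) ^ 2 / 25600) :
    ∃ (S : Finset (Fin N)) (D : EuclideanSpace ℂ (Fin d) →L[ℂ] EuclideanSpace ℂ (Fin d)),
      S.card = d ^ 2 ∧ (∀ y, (((d : ℝ)) : ℂ) • (D y + y) = fop S x y) ∧
      (∀ i j, i ≠ j → ‖(inner ℂ (x i) (D (x j)) : ℂ)‖ ≤ 2 / 5 / d) ∧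
      (∀ i, ‖(inner ℂ (x i) (D (x i)) : ℂ)‖ ≤ 2 / d) := by
  classical
  have hs1 : 0 < s := by linarith
  have hdR : (0 : ℝ) < d := by rw [← hs]; positivity
  have hdC : ((d : ℝ) : ℂ) ≠ 0 := by exact_mod_cast hdR.ne'
  have hNR : ((d : ℝ)) ^ 2 ≤ N := by exact_mod_cast hN
  have hN0 : (0 : ℝ) < N := lt_of_lt_of_le (by positivity) hNR
  obtain ⟨M, hMc, hM⟩ := sample x (2 / s) (by positivity) hhi (N - d ^ 2) (Nat.sub_le _ _) L hL
  have hcast : ((N - d ^ 2 : ℕ) : ℝ) = N - d ^ 2 := by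
    rw [Nat.cast_sub hN]
    push_cast
    rfl
  have hsq : √(((N - d ^ 2 : ℕ) : ℝ) * L) ≤ d / 160 := by
    rw [hcast]
    apply Real.sqrt_le_iff.mpr
    refine ⟨by positivity, hR.trans (le_of_eq (by ring))⟩
  have hmain : 8 * √(((N - d ^ 2 : ℕ) : ℝ) * L) * (2 / s) ^ 2 ≤ 1 / 5 := by
    have e1 : (2 / s) ^ 2 = 4 / d := by rw [div_pow, hs]; norm_num
    rw [e1]
    calc 8 * √(((N - d ^ 2 : ℕ) : ℝ) * L) * (4 / d) ≤ 8 * (d / 160) * (4 / d) := by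
          apply mul_le_mul_of_nonneg_right _ (by positivity)
          linarith
      _ = 1 / 5 := by field_simp; norm_num
  set D : EuclideanSpace ℂ (Fin d) →L[ℂ] EuclideanSpace ℂ (Fin d) :=
    (((d : ℝ) : ℂ))⁻¹ • fop Mᶜ x - ContinuousLinearMap.id ℂ _ with hD
  have hDy : ∀ y, D y = (((d : ℝ) : ℂ))⁻¹ • fop Mᶜ x y - y := fun y => rfl
  have hDy2 : ∀ y, (((d : ℝ)) : ℂ) • (D y + y) = fop Mᶜ x y := by
    intro y
    rw [hDy, sub_add_cancel, smul_smul, mul_inv_cancel₀ hdC, one_smul]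
  have hent : ∀ i j, ((d : ℝ) : ℂ) * inner ℂ (x i) (D (x j)) =
      -(∑ r ∈ M, (inner ℂ (x i) (x r) : ℂ) * inner ℂ (x r) (x j) -
        ((((N - d ^ 2 : ℕ) : ℝ) / N : ℝ) : ℂ) *
          ∑ r, (inner ℂ (x i) (x r) : ℂ) * inner ℂ (x r) (x j)) := by
    intro i j
    have e1 : ((d : ℝ) : ℂ) * inner ℂ (x i) (D (x j)) =
        inner ℂ (x i) (fop Mᶜ x (x j)) - ((d : ℝ) : ℂ) * inner ℂ (x i) (x j) := by
      rw [← hDy2, inner_smul_right, inner_add_right]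
      ring
    have e2 : (∑ r, (inner ℂ (x i) (x r) : ℂ) * inner ℂ (x r) (x j)) =
        (((N : ℝ) / d : ℝ) : ℂ) * inner ℂ (x i) (x j) := by
      rw [← fop_inner, fop_tight x _ ht, inner_smul_right]
    have e3 : (inner ℂ (x i) (fop Mᶜ x (x j)) : ℂ) =
        ∑ r, (inner ℂ (x i) (x r) : ℂ) * inner ℂ (x r) (x j) -
        ∑ r ∈ M, (inner ℂ (x i) (x r) : ℂ) * inner ℂ (x r) (x j) := by
      rw [fop_inner, ← sum_compl_add_sum M
        (fun r => (inner ℂ (x i) (x r) : ℂ) * inner ℂ (x r) (x j))]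
      ring
    rw [e1, e3, e2, hcast]
    have hNC : ((N : ℝ) : ℂ) ≠ 0 := by exact_mod_cast hN0.ne'
    push_cast
    push_cast at hdC hNC
    field_simp
    ring
  have hentn : ∀ i j, (d : ℝ) * ‖(inner ℂ (x i) (D (x j)) : ℂ)‖ ≤
      1 / 5 + ∑ r ∈ {i, j}, ‖(inner ℂ (x i) (x r) : ℂ)‖ * ‖(inner ℂ (x r) (x j) : ℂ)‖ := by
    intro i j
    have e1 : (d : ℝ) * ‖(inner ℂ (x i) (D (x j)) : ℂ)‖ =
        ‖((d : ℝ) : ℂ) * inner ℂ (x i) (D (x j))‖ := by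
      rw [norm_mul, Complex.norm_real, Real.norm_of_nonneg hdR.le]
    rw [e1, hent, norm_neg]
    exact (hM i j).trans (by linarith)
  have hself : ∀ i, ‖(inner ℂ (x i) (x i) : ℂ)‖ = 1 := by
    intro i
    rw [inner_self_eq_norm_sq_to_K, hx]
    norm_num
  refine ⟨Mᶜ, D, ?_, hDy2, ?_, ?_⟩
  · rw [card_compl, Fintype.card_fin, hMc]
    omega
  · intro i j hij
    have h1 := hentn i j
    rw [sum_pair hij, hself, hself] at h1
    have h2 := hhi i j hij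
    rw [div_div, le_div_iff₀ (by positivity)]
    have h3 : 4 / s ≤ 1 / 5 := by
      rw [div_le_div_iff₀ hs1 (by norm_num)]
      linarith
    have h4 : 2 / s = (4 / s) / 2 := by ring
    nlinarith
  · intro i
    have h1 := hentn i i
    rw [pair_eq_singleton, sum_singleton, hself] at h1
    rw [le_div_iff₀ hdR]
    nlinarith

lemma row_bound {N : ℕ} (f : Fin N → ℝ) (i : Fin N) (d : ℝ) (hd : 0 < d) (hN : 45 ≤ (N : ℝ))
    (hf : ∀ j, 0 ≤ f j) (h1 : ∀ j, j ≠ i → f j ≤ 2 / 5 / d) (h2 : f i ≤ 2 / d) :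
    ∑ j, f j ^ 2 ≤ N / (4 * d ^ 2) := by
  classical
  have h3 : ∀ j, f j ^ 2 ≤ 4 / (25 * d ^ 2) + if j = i then 4 / d ^ 2 else 0 := by
    intro j
    by_cases hj : j = i
    · rw [if_pos hj, hj]
      have := pow_le_pow_left₀ (hf i) h2 2
      have e1 : (2 / d) ^ 2 = 4 / d ^ 2 := by rw [div_pow]; norm_num
      rw [e1] at this
      have : 0 ≤ 4 / (25 * d ^ 2) := by positivity
      linarith
    · rw [if_neg hj]
      have := pow_le_pow_left₀ (hf j) (h1 j hj) 2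
      have e1 : (2 / 5 / d) ^ 2 = 4 / (25 * d ^ 2) := by
        field_simp
        norm_num
      rw [e1] at this
      linarith
  calc ∑ j, f j ^ 2 ≤ ∑ j, (4 / (25 * d ^ 2) + if j = i then 4 / d ^ 2 else 0) :=
        sum_le_sum fun j _ => h3 j
    _ = N * (4 / (25 * d ^ 2)) + 4 / d ^ 2 := by
        rw [sum_add_distrib, sum_ite_eq' univ i, if_pos (mem_univ _)]
        simp
    _ = (N * 4 / 25 + 4) / d ^ 2 := by field_simp
    _ ≤ (N / 4) / d ^ 2 := by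
        apply div_le_div_of_nonneg_right _ (by positivity)
        linarith
    _ = N / (4 * d ^ 2) := by rw [div_div]

theorem core (d N : ℕ) (s : ℝ) (hs : s ^ 2 = d) (hs0 : 1728 ≤ s)
    (x : Fin N → EuclideanSpace ℂ (Fin d)) (hN : d ^ 2 ≤ N) (hx : ∀ i, ‖x i‖ = 1)
    (hlo : ∀ i j, i ≠ j → 1 / (2 * s) ≤ ‖(inner ℂ (x i) (x j) : ℂ)‖)
    (hhi : ∀ i j, i ≠ j → ‖(inner ℂ (x i) (x j) : ℂ)‖ ≤ 2 / s)
    (ht : ∀ u, ∑ i, ‖(inner ℂ (x i) u : ℂ)‖ ^ 2 = ((N : ℝ) / d) * ‖u‖ ^ 2)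
    (L : ℝ) (hL : Real.log (2 * (2 * (N : ℝ) ^ 2 + 1)) ≤ L)
    (hR : ((N : ℝ) - d ^ 2) * L ≤ (d : ℝ) ^ 2 / 25600) :
    ∃ z : Fin (d ^ 2) → EuclideanSpace ℂ (Fin d), (∀ i, ‖z i‖ = 1) ∧
      (∀ u, ∑ i, ‖(inner ℂ (z i) u : ℂ)‖ ^ 2 = d * ‖u‖ ^ 2) ∧
      ∀ i j, i ≠ j → ∃ i' j', i' ≠ j' ∧
        ‖(inner ℂ (z i) (z j) : ℂ) - inner ℂ (x i') (x j')‖ ≤ 793 / s ^ 2 := by
  classical
  obtain ⟨S, D, hSc, hD, hoff, hdiag⟩ := entries d N s hs hs0 x hN hx hhi ht L hL hR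
  have hs1 : 0 < s := by linarith
  have hdR : (0 : ℝ) < d := by rw [← hs]; positivity
  have hNR : ((d : ℝ)) ^ 2 ≤ N := by exact_mod_cast hN
  have hd45 : (45 : ℝ) ≤ (d : ℝ) ^ 2 := by
    rw [← hs]
    nlinarith [sq_nonneg (s ^ 2 - 45), sq_nonneg (s - 1728)]
  have hN45 : (45 : ℝ) ≤ N := hd45.trans hNR
  have hN0 : (0 : ℝ) < N := by linarith
  have hrow : ∀ i, ∑ j, ‖(inner ℂ (x i) (D (x j)) : ℂ)‖ ^ 2 ≤ N / (4 * (d : ℝ) ^ 2) := fun i =>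
    row_bound (fun j => ‖(inner ℂ (x i) (D (x j)) : ℂ)‖) i d hdR hN45 (fun _ => norm_nonneg _)
      (fun j hj => hoff i j (Ne.symm hj)) (hdiag i)
  have hcol : ∀ i, ∑ j, ‖(inner ℂ (x j) (D (x i)) : ℂ)‖ ^ 2 ≤ N / (4 * (d : ℝ) ^ 2) := fun i =>
    row_bound (fun j => ‖(inner ℂ (x j) (D (x i)) : ℂ)‖) i d hdR hN45 (fun _ => norm_nonneg _)
      (fun j hj => hoff j i hj) (hdiag i)
  have hhalf : ∀ y, ‖D y‖ ≤ (1 / 2) * ‖y‖ := by
    intro y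
    have h1 := frob x ((N : ℝ) / d) (by positivity) ht D _ hrow y
    have h2 : (N : ℝ) * (N / (4 * (d : ℝ) ^ 2)) = ((N : ℝ) / d) ^ 2 * (1 / 4) := by
      field_simp
    rw [h2, mul_assoc] at h1
    have h3 : ‖D y‖ ^ 2 ≤ 1 / 4 * ‖y‖ ^ 2 := le_of_mul_le_mul_left h1 (by positivity)
    have h4 : ‖D y‖ ^ 2 ≤ ((1 / 2) * ‖y‖) ^ 2 := by
      calc ‖D y‖ ^ 2 ≤ 1 / 4 * ‖y‖ ^ 2 := h3
        _ = _ := by ring
    exact le_of_sq_le_sq h4 (by positivity)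
  have hDx : ∀ i, ‖D (x i)‖ ^ 2 ≤ 1 / (4 * d) := by
    intro i
    have h1 := hcol i
    rw [ht] at h1
    have h2 : (N : ℝ) / (4 * (d : ℝ) ^ 2) = ((N : ℝ) / d) * (1 / (4 * d)) := by field_simp
    rw [h2] at h1
    exact le_of_mul_le_mul_left h1 (by positivity)
  have hDD : ∀ i j, ‖D (x i)‖ * ‖D (x j)‖ ≤ 1 / (4 * d) := by
    intro i j
    nlinarith [hDx i, hDx j, sq_nonneg (‖D (x i)‖ - ‖D (x j)‖)]
  obtain ⟨w, hw1, hw2⟩ := tighten S x d hdR D hD hhalf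
  have hwoff : ∀ i j, i ≠ j → ‖(inner ℂ (w i) (w j) : ℂ) - inner ℂ (x i) (x j)‖ ≤ 1 / s ^ 2 := by
    intro i j hij
    refine (hw2 i j).trans ?_
    have h1 := hoff i j hij
    have h2 := hDD i j
    rw [hs]
    have h3 : 2 / 5 / (d : ℝ) = 2 / 5 * (1 / d) := by ring
    have h4 : 1 / (4 * (d : ℝ)) = 1 / 4 * (1 / d) := by ring
    have h5 : 0 < 1 / (d : ℝ) := by positivity
    rw [h3] at h1
    rw [h4] at h2
    linarith
  have hwdiag : ∀ i, |‖w i‖ ^ 2 - 1| ≤ 3 / s ^ 2 := by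
    intro i
    have h0 : (inner ℂ (w i) (w i) : ℂ) - inner ℂ (x i) (x i) = ((‖w i‖ ^ 2 - 1 : ℝ) : ℂ) := by
      rw [inner_self_eq_norm_sq_to_K, inner_self_eq_norm_sq_to_K, hx]
      push_cast
      norm_num
    have h1 := hw2 i i
    rw [h0, Complex.norm_real, Real.norm_eq_abs] at h1
    refine h1.trans ?_
    have h2 := hdiag i
    have h3 := hDD i i
    rw [hs]
    have h4 : 2 / (d : ℝ) = 2 * (1 / d) := by ring
    have h5 : 1 / (4 * (d : ℝ)) = 1 / 4 * (1 / d) := by ring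
    have h6 : 0 < 1 / (d : ℝ) := by positivity
    have h7 : 3 / (d : ℝ) = 3 * (1 / d) := by ring
    rw [h4] at h2
    rw [h5] at h3
    rw [h7]
    linarith
  -- reindexing
  let e : Fin (d ^ 2) ≃ S := (S.equivFinOfCardEq hSc).symm
  let w' : Fin (d ^ 2) → EuclideanSpace ℂ (Fin d) := fun k => w (e k)
  have hsumf : ∀ f : EuclideanSpace ℂ (Fin d) → ℝ, ∑ k, f (w' k) = ∑ i ∈ S, f (w i) := by
    intro f
    rw [← sum_coe_sort S (fun i => f (w i))]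
    exact Equiv.sum_comp e (fun i : S => f (w i))
  have hne : ∀ k l, k ≠ l → ((e k : S) : Fin N) ≠ (e l : S) := by
    intro k l hkl h
    exact hkl (e.injective (Subtype.ext h))
  have htight : ∀ y, ∑ k, ‖(inner ℂ (w' k) y : ℂ)‖ ^ 2 = d * ‖y‖ ^ 2 := by
    intro y
    rw [hsumf (fun v => ‖(inner ℂ v y : ℂ)‖ ^ 2)]
    exact hw1 y
  have htrace : ∑ k, (‖w' k‖ ^ 2 - 1) = 0 := by
    have h1 : ∀ k, ‖w' k‖ ^ 2 =
        ∑ a, ‖(inner ℂ (w' k) (EuclideanSpace.basisFun (Fin d) ℂ a) : ℂ)‖ ^ 2 := fun k =>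
      ((EuclideanSpace.basisFun (Fin d) ℂ).sum_sq_norm_inner_left (w' k)).symm
    have h2 : ∑ k, ‖w' k‖ ^ 2 = (d : ℝ) ^ 2 := by
      rw [sum_congr rfl fun k _ => h1 k, sum_comm]
      rw [sum_congr rfl fun a _ => htight _]
      have h3 : ∀ a, ‖(EuclideanSpace.basisFun (Fin d) ℂ) a‖ = 1 := fun a =>
        (EuclideanSpace.basisFun (Fin d) ℂ).orthonormal.1 a
      simp only [h3]
      simp [sq]
    rw [sum_sub_distrib, h2]
    simp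
  have hs1728 : 1728 * s ≤ s ^ 2 := by nlinarith
  have h1s : 1 / s ^ 2 ≤ 1 / (1728 * s) := by
    apply one_div_le_one_div_of_le (by positivity)
    exact hs1728
  have h1s' : 1 / (1728 * s) = 1 / 1728 * (1 / s) := by ring
  have hsp : 0 < 1 / s := by positivity
  obtain ⟨z, e', he', hz1, hz2, hz3⟩ := equalise (d ^ 2) w' (1 / (4 * s)) (3 / s) (3 / s ^ 2)
    (by positivity) (fun k => hwdiag _) (by positivity) htrace
    (fun k l hkl => by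
      have h1 := hwoff _ _ (hne k l hkl)
      have h2 := hlo _ _ (hne k l hkl)
      have h3 : ‖(inner ℂ (x (e k)) (x (e l)) : ℂ)‖ -
          ‖(inner ℂ (w (e k)) (w (e l)) : ℂ) - inner ℂ (x (e k)) (x (e l))‖ ≤
          ‖(inner ℂ (w (e k)) (w (e l)) : ℂ)‖ := by
        have e1 := norm_sub_norm_le (inner ℂ (x (e k)) (x (e l)) : ℂ)
          ((inner ℂ (x (e k)) (x (e l)) : ℂ) - inner ℂ (w (e k)) (w (e l)))
        rw [sub_sub_cancel, norm_sub_rev (inner ℂ (x (e k)) (x (e l)) : ℂ)] at e1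
        exact e1
      have h4 : 1 / (2 * s) = 1 / 2 * (1 / s) := by ring
      have h5 : 1 / (4 * s) = 1 / 4 * (1 / s) := by ring
      rw [h4] at h2
      rw [h5]
      show _ ≤ ‖(inner ℂ (w (e k)) (w (e l)) : ℂ)‖
      linarith)
    (fun k l hkl => by
      have h1 := hwoff _ _ (hne k l hkl)
      have h2 := hhi _ _ (hne k l hkl)
      have h3 : ‖(inner ℂ (w (e k)) (w (e l)) : ℂ)‖ ≤ ‖(inner ℂ (x (e k)) (x (e l)) : ℂ)‖ +
          ‖(inner ℂ (w (e k)) (w (e l)) : ℂ) - inner ℂ (x (e k)) (x (e l))‖ := by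
        have e1 := norm_add_le (inner ℂ (x (e k)) (x (e l)) : ℂ)
          ((inner ℂ (w (e k)) (w (e l)) : ℂ) - inner ℂ (x (e k)) (x (e l)))
        rw [add_sub_cancel] at e1
        exact e1
      have h4 : 2 / s = 2 * (1 / s) := by ring
      have h5 : 3 / s = 3 * (1 / s) := by ring
      rw [h4] at h2
      rw [h5]
      show ‖(inner ℂ (w (e k)) (w (e l)) : ℂ)‖ ≤ _
      linarith)
    (by
      rw [mul_div_assoc', div_le_div_iff₀ (by positivity) (by positivity)]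
      nlinarith)
    (by
      have e1 : 12 * (3 / s ^ 2) * (3 / s) = 108 / (s ^ 2 * s) := by ring
      have e2 : (1 / (4 * s)) ^ 2 = 1 / (16 * s ^ 2) := by ring
      rw [e1, e2, div_le_div_iff₀ (by positivity) (by positivity)]
      have : 108 * (16 * s ^ 2) = 1728 * s ^ 2 := by ring
      rw [this, one_mul]
      nlinarith [sq_nonneg s])
    (by
      apply div_le_div_of_nonneg_left (by norm_num) hs1
      nlinarith)
  refine ⟨z, hz1, fun u => ?_, fun i j hij => ?_⟩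
  · rw [hz2]
    exact htight u
  · refine ⟨e (e' i), e (e' j), hne _ _ (fun h => hij (he' h)), ?_⟩
    have h1 := hz3 i j hij
    have h2 := hwoff _ _ (hne (e' i) (e' j) (fun h => hij (he' h)))
    have e1 : 22 * (3 / s ^ 2) * (3 / s) / (1 / (4 * s)) = 792 * (1 / s ^ 2) := by
      field_simp
      norm_num
    rw [e1] at h1
    have e2 : (inner ℂ (z i) (z j) : ℂ) - inner ℂ (x (e (e' i))) (x (e (e' j))) =
        ((inner ℂ (z i) (z j) : ℂ) - inner ℂ (w' (e' i)) (w' (e' j))) +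
        ((inner ℂ (w (e (e' i))) (w (e (e' j))) : ℂ) -
          inner ℂ (x (e (e' i))) (x (e (e' j)))) := by
      show _ = ((inner ℂ (z i) (z j) : ℂ) - inner ℂ (w (e (e' i))) (w (e (e' j)))) + _
      ring
    rw [e2]
    refine (norm_add_le _ _).trans ?_
    have e3 : 793 / s ^ 2 = 793 * (1 / s ^ 2) := by ring
    rw [e3]
    linarith

/-- the final inequality -/
lemma final_ineq {d s t t0 ε : ℝ} (hs : s ^ 2 = d) (hs0 : 1728 ≤ s) (ht : 0 ≤ t) (ht0 : 0 ≤ t0)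
    (h0 : t0 ≤ 2 / s) (h : |t - t0| ≤ 793 / s ^ 2) (hε : |(d + 1) * t0 ^ 2 - 1| ≤ ε) :
    |(d + 1) * t ^ 2 - 1| ≤ ε + 7930 / s := by
  have hs1 : 0 < s := by linarith
  have h1 : (d + 1) * t ^ 2 - 1 = ((d + 1) * t0 ^ 2 - 1) + (d + 1) * ((t - t0) * (t + t0)) := by
    ring
  rw [h1]
  refine (abs_add_le _ _).trans (add_le_add hε ?_)
  have hd : 1 ≤ d := by rw [← hs]; nlinarith
  have hd0 : 0 < d := by linarith
  rw [abs_mul, abs_mul, abs_of_pos (by linarith : 0 < d + 1), abs_of_nonneg (add_nonneg ht ht0)]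
  have h2 : 793 / s ^ 2 ≤ 1 / s := by
    rw [div_le_div_iff₀ (by positivity) hs1]
    nlinarith
  have h3 : t + t0 ≤ 5 / s := by
    have e1 := (abs_le.mp h).2
    have e2 : 5 / s = 2 / s + 2 / s + 1 / s := by ring
    rw [e2]
    linarith
  calc (d + 1) * (|t - t0| * (t + t0)) ≤ (2 * d) * ((793 / s ^ 2) * (5 / s)) := by
        apply mul_le_mul (by linarith) _ (by positivity) (by positivity)
        exact mul_le_mul h h3 (add_nonneg ht ht0) (by positivity)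
    _ = 7930 / s := by
        rw [← hs]
        field_simp
        norm_num

/-- large dimensions -/
theorem exact_large : ∃ (c C : ℝ) (d₀ : ℕ), 0 < c ∧ c ≤ 1 / 2 ∧ 0 < C ∧ ∀ d : ℕ, d₀ ≤ d →
    ∃ x : Fin (d ^ 2) → EuclideanSpace ℂ (Fin d),
      (∀ i, ‖x i‖ = 1) ∧
      (∀ i j, i ≠ j →
        |((d : ℝ) + 1) * ‖(inner ℂ (x i) (x j) : ℂ)‖ ^ 2 - 1| ≤ C * (d : ℝ) ^ (-c)) ∧
      ∀ u, ∑ i, ‖(inner ℂ (x i) u : ℂ)‖ ^ 2 = (d : ℝ) * ‖u‖ ^ 2 := by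
  obtain ⟨c, C, d₀, hc, hc1, hC, hd₀, h⟩ := Pool.Agent.Y387.AP.large
  -- thresholds
  set K : ℝ := max (256000 * C / c) (2 * C) with hK
  have hev : ∀ᶠ d : ℕ in Filter.atTop, K ≤ (d : ℝ) ^ (c / 2) :=
    ((tendsto_rpow_atTop (by positivity : 0 < c / 2)).comp
      tendsto_natCast_atTop_atTop).eventually_ge_atTop K
  obtain ⟨d₁, hd₁⟩ := Filter.eventually_atTop.mp hev
  obtain ⟨d₂, hd₂⟩ := exists_nat_ge (6 * (1 + C) ^ 2)
  refine ⟨min c (1 / 2), C + 7930, max (max d₀ d₁) (max d₂ 2985984), lt_min hc (by norm_num),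
    min_le_right _ _, by positivity, fun d hd => ?_⟩
  have hdd0 : d₀ ≤ d := le_trans (le_trans (le_max_left _ _) (le_max_left _ _)) hd
  have hdd1 : d₁ ≤ d := le_trans (le_trans (le_max_right _ _) (le_max_left _ _)) hd
  have hdd2 : d₂ ≤ d := le_trans (le_trans (le_max_left _ _) (le_max_right _ _)) hd
  have hdd3 : 2985984 ≤ d := le_trans (le_trans (le_max_right _ _) (le_max_right _ _)) hd
  obtain ⟨N, x, hN1, hx, hxx, ht, S, hSc, -⟩ := h d hdd0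
  have hdR : (2985984 : ℝ) ≤ d := by exact_mod_cast hdd3
  have hd0 : (0 : ℝ) < d := by linarith
  have hd1 : (1 : ℝ) ≤ d := by linarith
  set s : ℝ := √(d : ℝ) with hs
  have hss : s ^ 2 = d := Real.sq_sqrt hd0.le
  have hs0 : 1728 ≤ s := by
    rw [hs]
    apply Real.le_sqrt_of_sq_le
    linarith
  have hs1 : 0 < s := by linarith
  have hN2 : d ^ 2 ≤ N := by
    rw [← hSc]
    have := card_le_univ S
    rwa [Fintype.card_fin] at this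
  have hKd := hd₁ d hdd1
  have hK1 : 256000 * C / c ≤ (d : ℝ) ^ (c / 2) := (le_max_left _ _).trans hKd
  have hK2 : 2 * C ≤ (d : ℝ) ^ (c / 2) := (le_max_right _ _).trans hKd
  have hpc : (d : ℝ) ^ (-c) * ((d : ℝ) ^ (c / 2) * (d : ℝ) ^ (c / 2)) = 1 := by
    rw [← Real.rpow_add hd0, ← Real.rpow_add hd0]
    rw [show -c + (c / 2 + c / 2) = 0 by ring, Real.rpow_zero]
  have hpos : 0 < (d : ℝ) ^ (-c) := Real.rpow_pos_of_pos hd0 _
  have hpos2 : 0 < (d : ℝ) ^ (c / 2) := Real.rpow_pos_of_pos hd0 _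
  have hone : 1 ≤ (d : ℝ) ^ (c / 2) := Real.one_le_rpow hd1 (by positivity)
  have hsmall : C * (d : ℝ) ^ (-c) ≤ 1 / 2 := by
    have e1 : 2 * C * (d : ℝ) ^ (-c) ≤ (d : ℝ) ^ (c / 2) * (d : ℝ) ^ (-c) :=
      mul_le_mul_of_nonneg_right hK2 hpos.le
    have e2 : (d : ℝ) ^ (c / 2) * (d : ℝ) ^ (-c) * 1 ≤
        (d : ℝ) ^ (c / 2) * (d : ℝ) ^ (-c) * (d : ℝ) ^ (c / 2) :=
      mul_le_mul_of_nonneg_left hone (by positivity)
    have e3 : (d : ℝ) ^ (c / 2) * (d : ℝ) ^ (-c) * (d : ℝ) ^ (c / 2) = 1 := by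
      rw [← hpc]; ring
    linarith
  have hpc1 : (d : ℝ) ^ (-c) ≤ 1 := Real.rpow_le_one_of_one_le_of_nonpos hd1 (by linarith)
  -- the flatness
  have hlo : ∀ i j, i ≠ j → 1 / (2 * s) ≤ ‖(inner ℂ (x i) (x j) : ℂ)‖ := by
    intro i j hij
    have h1 := (abs_le.mp ((hxx i j hij).trans hsmall)).1
    have h2 : (1 / (2 * s)) ^ 2 ≤ ‖(inner ℂ (x i) (x j) : ℂ)‖ ^ 2 := by
      have e1 : (1 / (2 * s)) ^ 2 = 1 / (4 * d) := by rw [div_pow, mul_pow, hss]; norm_num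
      rw [e1, div_le_iff₀ (by positivity)]
      nlinarith [sq_nonneg ‖(inner ℂ (x i) (x j) : ℂ)‖]
    exact le_of_sq_le_sq h2 (norm_nonneg _)
  have hhi : ∀ i j, i ≠ j → ‖(inner ℂ (x i) (x j) : ℂ)‖ ≤ 2 / s := by
    intro i j hij
    have h1 := (abs_le.mp ((hxx i j hij).trans hsmall)).2
    have h2 : ‖(inner ℂ (x i) (x j) : ℂ)‖ ^ 2 ≤ (2 / s) ^ 2 := by
      have e1 : (2 / s) ^ 2 = 4 / d := by rw [div_pow, hss]; norm_num
      rw [e1, le_div_iff₀ hd0]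
      nlinarith [sq_nonneg ‖(inner ℂ (x i) (x j) : ℂ)‖]
    exact le_of_sq_le_sq h2 (by positivity)
  -- the logarithm
  have hNup : (N : ℝ) ≤ (1 + C) * (d : ℝ) ^ 2 := by
    refine hN1.trans ?_
    apply mul_le_mul_of_nonneg_right _ (by positivity)
    nlinarith
  have hNlo : ((d : ℝ)) ^ 2 ≤ N := by exact_mod_cast hN2
  have hL : Real.log (2 * (2 * (N : ℝ) ^ 2 + 1)) ≤ 10 / c * (d : ℝ) ^ (c / 2) := by
    have e1 : 2 * (2 * (N : ℝ) ^ 2 + 1) ≤ (d : ℝ) ^ 5 := by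
      have h00 : (1 : ℝ) ≤ (d : ℝ) ^ 2 := one_le_pow₀ hd1
      have h1 : (1 : ℝ) ≤ (N : ℝ) ^ 2 := one_le_pow₀ (h00.trans hNlo)
      have h2 : (N : ℝ) ^ 2 ≤ ((1 + C) * (d : ℝ) ^ 2) ^ 2 := pow_le_pow_left₀ (by positivity) hNup 2
      have h3 : 6 * (1 + C) ^ 2 ≤ d := hd₂.trans (by exact_mod_cast hdd2)
      calc 2 * (2 * (N : ℝ) ^ 2 + 1) ≤ 6 * (N : ℝ) ^ 2 := by linarith
        _ ≤ 6 * ((1 + C) * (d : ℝ) ^ 2) ^ 2 := by linarith
        _ = (6 * (1 + C) ^ 2) * (d : ℝ) ^ 4 := by ring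
        _ ≤ d * (d : ℝ) ^ 4 := mul_le_mul_of_nonneg_right h3 (by positivity)
        _ = (d : ℝ) ^ 5 := by ring
    calc Real.log (2 * (2 * (N : ℝ) ^ 2 + 1)) ≤ Real.log ((d : ℝ) ^ 5) :=
          Real.log_le_log (by positivity) e1
      _ = 5 * Real.log d := by rw [Real.log_pow]; norm_num
      _ ≤ 5 * ((d : ℝ) ^ (c / 2) / (c / 2)) := by
          apply mul_le_mul_of_nonneg_left _ (by norm_num)
          exact Real.log_le_rpow_div hd0.le (by positivity)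
      _ = 10 / c * (d : ℝ) ^ (c / 2) := by field_simp; norm_num
  have hR : ((N : ℝ) - d ^ 2) * (10 / c * (d : ℝ) ^ (c / 2)) ≤ (d : ℝ) ^ 2 / 25600 := by
    have e1 : (N : ℝ) - d ^ 2 ≤ C * (d : ℝ) ^ (-c) * (d : ℝ) ^ 2 := by
      have : (1 + C * (d : ℝ) ^ (-c)) * (d : ℝ) ^ 2 = (d : ℝ) ^ 2 +
        C * (d : ℝ) ^ (-c) * (d : ℝ) ^ 2 := by ring
      rw [this] at hN1
      linarith
    calc ((N : ℝ) - d ^ 2) * (10 / c * (d : ℝ) ^ (c / 2)) ≤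
          (C * (d : ℝ) ^ (-c) * (d : ℝ) ^ 2) * (10 / c * (d : ℝ) ^ (c / 2)) :=
          mul_le_mul_of_nonneg_right e1 (by positivity)
      _ = (256000 * C / c) * ((d : ℝ) ^ (-c) * (d : ℝ) ^ (c / 2) * (d : ℝ) ^ 2 / 25600) := by
          ring
      _ ≤ (d : ℝ) ^ (c / 2) * ((d : ℝ) ^ (-c) * (d : ℝ) ^ (c / 2) * (d : ℝ) ^ 2 / 25600) :=
          mul_le_mul_of_nonneg_right hK1 (by positivity)
      _ = ((d : ℝ) ^ (-c) * ((d : ℝ) ^ (c / 2) * (d : ℝ) ^ (c / 2))) * (d : ℝ) ^ 2 / 25600 := by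
          ring
      _ = (d : ℝ) ^ 2 / 25600 := by rw [hpc, one_mul]
  obtain ⟨z, hz1, hz2, hz3⟩ := core d N s hss hs0 x hN2 hx hlo hhi ht _ hL hR
  refine ⟨z, hz1, fun i j hij => ?_, hz2⟩
  obtain ⟨i', j', hij', hz⟩ := hz3 i j hij
  have h1 : |‖(inner ℂ (z i) (z j) : ℂ)‖ - ‖(inner ℂ (x i') (x j') : ℂ)‖| ≤ 793 / s ^ 2 :=
    (abs_norm_sub_norm_le _ _).trans hz
  refine (final_ineq hss hs0 (norm_nonneg _) (norm_nonneg _) (hhi i' j' hij') h1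
    (hxx i' j' hij')).trans ?_
  have h2 : (d : ℝ) ^ (-c) ≤ (d : ℝ) ^ (-(min c (1 / 2))) :=
    Real.rpow_le_rpow_of_exponent_le hd1 (by linarith [min_le_left c (1 / 2)])
  have h3 : 1 / s ≤ (d : ℝ) ^ (-(min c (1 / 2))) := by
    have e1 : 1 / s = (d : ℝ) ^ (-(1 / 2 : ℝ)) := by
      rw [hs, Real.sqrt_eq_rpow, Real.rpow_neg hd0.le, one_div]
    rw [e1]
    exact Real.rpow_le_rpow_of_exponent_le hd1 (by linarith [min_le_right c (1 / 2)])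
  have h4 : 7930 / s = 7930 * (1 / s) := by ring
  rw [h4, add_mul]
  have h5 : C * (d : ℝ) ^ (-c) ≤ C * (d : ℝ) ^ (-(min c (1 / 2))) :=
    mul_le_mul_of_nonneg_left h2 hC.le
  linarith

/-- all dimensions -/
theorem exact_main : ∃ c C : ℝ, 0 < c ∧ 0 < C ∧ ∀ d : ℕ, 1 ≤ d →
    ∃ x : Fin (d ^ 2) → EuclideanSpace ℂ (Fin d),
      (∀ i, ‖x i‖ = 1) ∧
      (∀ i j, i ≠ j →
        |((d : ℝ) + 1) * ‖(inner ℂ (x i) (x j) : ℂ)‖ ^ 2 - 1| ≤ C * (d : ℝ) ^ (-c)) ∧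
      ∀ u, ∑ i, ‖(inner ℂ (x i) u : ℂ)‖ ^ 2 = (d : ℝ) * ‖u‖ ^ 2 := by
  obtain ⟨c, C, d₀, hc, hc1, hC, h⟩ := exact_large
  refine ⟨c, max C ((d₀ : ℝ) ^ 2), hc, lt_max_of_lt_left hC, fun d hd => ?_⟩
  have hdR : (1 : ℝ) ≤ d := by exact_mod_cast hd
  have hd0 : (0 : ℝ) < d := by linarith
  have hpos : 0 < (d : ℝ) ^ (-c) := Real.rpow_pos_of_pos hd0 _
  rcases le_or_gt d₀ d with hle | hlt
  · obtain ⟨x, h1, h2, h3⟩ := h d hle
    exact ⟨x, h1, fun i j hij => (h2 i j hij).trans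
      (mul_le_mul_of_nonneg_right (le_max_left _ _) hpos.le), h3⟩
  · obtain ⟨x, h1, h2, h3⟩ := Pool.Agent.Y387.AP.small d hd
    have hkey : (d : ℝ) ≤ max C ((d₀ : ℝ) ^ 2) * (d : ℝ) ^ (-c) := by
      have hdd : (d : ℝ) ≤ d₀ := by exact_mod_cast hlt.le
      have e1 : (d : ℝ) ^ 2 * (d : ℝ) ^ (-c) ≤ max C ((d₀ : ℝ) ^ 2) * (d : ℝ) ^ (-c) := by
        apply mul_le_mul_of_nonneg_right _ hpos.le
        refine le_trans ?_ (le_max_right _ _)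
        exact pow_le_pow_left₀ hd0.le hdd 2
      refine le_trans ?_ e1
      have e2 : (d : ℝ) ^ (-(1 : ℝ)) ≤ (d : ℝ) ^ (-c) :=
        Real.rpow_le_rpow_of_exponent_le hdR (by linarith)
      calc (d : ℝ) = (d : ℝ) ^ 2 * (d : ℝ) ^ (-(1 : ℝ)) := by
            rw [Real.rpow_neg_one]
            field_simp
        _ ≤ _ := mul_le_mul_of_nonneg_left e2 (by positivity)
    exact ⟨x, h1, fun i j hij => (h2 i j hij).trans hkey, h3⟩

end Pool.Agent.L7h42.Zauner.Exact
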