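import Pool.Agent.L7h42.Zauner.ExactTight
import Pool.Agent.H109R2.SIC.Select

/-!
# Selecting exactly `d ^ 2` vectors of a flat tight frame
-/

set_option autoImplicit false

open Finset

namespace Pool.Agent.L7h42.Zauner.Exact

variable {E : Type*} [NormedAddCommGroup E] [InnerProductSpace ℂ E]

lemma fop_tight {N : ℕ} (x : Fin N → E) (a : ℝ)
    (ht : ∀ u, ∑ i, ‖(inner ℂ (x i) u : ℂ)‖ ^ 2 = a * ‖u‖ ^ 2) (y : E) :
    fop univ x y = (a : ℂ) • y := by
  set T : E →ₗ[ℂ] E := (fop univ x : E →ₗ[ℂ] E) - (a : ℂ) • LinearMap.id with hT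
  have h0 : T = 0 := by
    rw [← inner_map_self_eq_zero]
    intro v
    have h1 : T v = fop univ x v - (a : ℂ) • v := rfl
    rw [h1, inner_sub_left, ← fop_symm, fop_self, inner_smul_left, Complex.conj_ofReal, ht]
    have h2 : (inner ℂ v v : ℂ) = ((‖v‖ ^ 2 : ℝ) : ℂ) := by
      rw [inner_self_eq_norm_sq_to_K]
      norm_cast
    rw [h2]
    push_cast
    ring
  have h1 : T y = 0 := by rw [h0]; rfl
  have h2 : T y = fop univ x y - (a : ℂ) • y := rfl
  rw [h2] at h1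
  exact sub_eq_zero.mp h1

/-- the operator norm is bounded by the entries -/
lemma frob {N : ℕ} (x : Fin N → E) (a : ℝ) (ha : 0 < a)
    (ht : ∀ u, ∑ i, ‖(inner ℂ (x i) u : ℂ)‖ ^ 2 = a * ‖u‖ ^ 2) (D : E →L[ℂ] E) (ρ : ℝ)
    (hρ : ∀ i, ∑ j, ‖(inner ℂ (x i) (D (x j)) : ℂ)‖ ^ 2 ≤ ρ) (y : E) :
    a ^ 2 * ‖D y‖ ^ 2 ≤ N * ρ * ‖y‖ ^ 2 := by
  have h1 : ∀ i, a * ‖(inner ℂ (x i) (D y) : ℂ)‖ ^ 2 ≤ ρ * ‖y‖ ^ 2 := by
    intro i
    have e1 : (a : ℂ) * inner ℂ (x i) (D y) =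
        ∑ j, (inner ℂ (x j) y : ℂ) * inner ℂ (x i) (D (x j)) := by
      rw [← inner_smul_right, ← map_smul, ← fop_tight x a ht, fop_apply, map_sum, inner_sum]
      refine sum_congr rfl fun j _ => ?_
      rw [map_smul, inner_smul_right]
    have e2 : a * ‖(inner ℂ (x i) (D y) : ℂ)‖ ≤
        ∑ j, ‖(inner ℂ (x j) y : ℂ)‖ * ‖(inner ℂ (x i) (D (x j)) : ℂ)‖ := by
      calc a * ‖(inner ℂ (x i) (D y) : ℂ)‖ = ‖(a : ℂ) * inner ℂ (x i) (D y)‖ := by
            rw [norm_mul, Complex.norm_real, Real.norm_of_nonneg ha.le]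
        _ = ‖∑ j, (inner ℂ (x j) y : ℂ) * inner ℂ (x i) (D (x j))‖ := by rw [e1]
        _ ≤ _ := by
            refine (norm_sum_le _ _).trans (le_of_eq ?_)
            exact sum_congr rfl fun j _ => norm_mul _ _
    have e3 := sum_mul_sq_le_sq_mul_sq univ (fun j => ‖(inner ℂ (x j) y : ℂ)‖)
      (fun j => ‖(inner ℂ (x i) (D (x j)) : ℂ)‖)
    rw [ht y] at e3
    have e4 : (a * ‖(inner ℂ (x i) (D y) : ℂ)‖) ^ 2 ≤
        (∑ j, ‖(inner ℂ (x j) y : ℂ)‖ * ‖(inner ℂ (x i) (D (x j)) : ℂ)‖) ^ 2 :=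
      pow_le_pow_left₀ (by positivity) e2 2
    have e5 : a * ‖y‖ ^ 2 * ∑ j, ‖(inner ℂ (x i) (D (x j)) : ℂ)‖ ^ 2 ≤ a * ‖y‖ ^ 2 * ρ :=
      mul_le_mul_of_nonneg_left (hρ i) (by positivity)
    have e6 : a * (a * ‖(inner ℂ (x i) (D y) : ℂ)‖ ^ 2) ≤ a * (ρ * ‖y‖ ^ 2) := by
      calc a * (a * ‖(inner ℂ (x i) (D y) : ℂ)‖ ^ 2) = (a * ‖(inner ℂ (x i) (D y) : ℂ)‖) ^ 2 := by
            ring
        _ ≤ _ := e4.trans (e3.trans e5)
        _ = _ := by ring
    exact le_of_mul_le_mul_left e6 ha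
  have h2 : a * (a * ‖D y‖ ^ 2) ≤ N * (ρ * ‖y‖ ^ 2) := by
    rw [← ht (D y), mul_sum]
    calc ∑ i, a * ‖(inner ℂ (x i) (D y) : ℂ)‖ ^ 2 ≤ ∑ _i : Fin N, ρ * ‖y‖ ^ 2 :=
          sum_le_sum fun i _ => h1 i
      _ = N * (ρ * ‖y‖ ^ 2) := by simp
  calc a ^ 2 * ‖D y‖ ^ 2 = a * (a * ‖D y‖ ^ 2) := by ring
    _ ≤ _ := h2
    _ = _ := by ring

/-- a subset of `m` indices which samples all products well -/
lemma sample {N : ℕ} (x : Fin N → E) (b : ℝ) (hb : 0 < b)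
    (hfl : ∀ i j, i ≠ j → ‖(inner ℂ (x i) (x j) : ℂ)‖ ≤ b) (m : ℕ) (hm : m ≤ N) (L : ℝ)
    (hL : Real.log (2 * (2 * (N : ℝ) ^ 2 + 1)) ≤ L) :
    ∃ M : Finset (Fin N), M.card = m ∧ ∀ i j,
      ‖∑ r ∈ M, (inner ℂ (x i) (x r) : ℂ) * inner ℂ (x r) (x j) -
        ((m / N : ℝ) : ℂ) * ∑ r, (inner ℂ (x i) (x r) : ℂ) * inner ℂ (x r) (x j)‖ ≤
      8 * √(m * L) * b ^ 2 +
        ∑ r ∈ {i, j}, ‖(inner ℂ (x i) (x r) : ℂ)‖ * ‖(inner ℂ (x r) (x j) : ℂ)‖ := by
  classical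
  let f : Fin N → Fin N → Fin N → ℂ := fun i j r => inner ℂ (x i) (x r) * inner ℂ (x r) (x j)
  let h : Fin N → Fin N → Fin N → ℂ := fun i j r => if r = i ∨ r = j then 0 else f i j r
  have hh : ∀ i j r, ‖h i j r‖ ≤ b ^ 2 := by
    intro i j r
    by_cases hr : r = i ∨ r = j
    · have : h i j r = 0 := if_pos hr
      rw [this, norm_zero]
      positivity
    · have e1 : h i j r = f i j r := if_neg hr
      push Not at hr
      rw [e1, norm_mul, sq]
      exact mul_le_mul (hfl _ _ (Ne.symm hr.1)) (hfl _ _ hr.2) (norm_nonneg _) hb.le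
  let T : Finset ((Fin N × Fin N) × Bool) := univ
  let g : ((Fin N × Fin N) × Bool) → Fin N → ℝ := fun t r =>
    if t.2 then (h t.1.1 t.1.2 r).re / b ^ 2 else (h t.1.1 t.1.2 r).im / b ^ 2
  have hg : ∀ t ∈ T, ∀ r ∈ (univ : Finset (Fin N)), |g t r| ≤ 1 := by
    rintro ⟨⟨i, j⟩, c⟩ _ r _
    cases c with
    | true =>
      show |(h i j r).re / b ^ 2| ≤ 1
      rw [abs_div, abs_of_pos (by positivity : 0 < b ^ 2), div_le_one (by positivity)]
      exact (Complex.abs_re_le_norm _).trans (hh i j r)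
    | false =>
      show |(h i j r).im / b ^ 2| ≤ 1
      rw [abs_div, abs_of_pos (by positivity : 0 < b ^ 2), div_le_one (by positivity)]
      exact (Complex.abs_im_le_norm _).trans (hh i j r)
  have hTc : (T.card : ℝ) = 2 * (N : ℝ) ^ 2 := by
    simp only [T, card_univ, Fintype.card_prod, Fintype.card_fin, Fintype.card_bool]
    push_cast
    ring
  obtain ⟨M, -, hMc, hM⟩ := Pool.Agent.H109R2.SIC.select (univ : Finset (Fin N)) T g hg m
    (by simpa using hm) L (by rw [hTc]; exact hL)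
  refine ⟨M, hMc, fun i j => ?_⟩
  have hcardN : ((univ : Finset (Fin N)).card : ℝ) = N := by simp
  rw [hcardN] at hM
  have hre := hM ((i, j), true) (mem_univ _)
  have him := hM ((i, j), false) (mem_univ _)
  set q : ℝ := (m / N : ℝ) with hq
  have hq0 : 0 ≤ q := by rw [hq]; positivity
  have hq1 : q ≤ 1 := by
    rw [hq]
    rcases Nat.eq_zero_or_pos N with h0 | h0
    · rw [h0]; simp
    · rw [div_le_one (by exact_mod_cast h0)]
      exact_mod_cast hm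
  -- the main part
  have hb2 : 0 < b ^ 2 := by positivity
  have hmain : ‖∑ r ∈ M, h i j r - ((q : ℝ) : ℂ) * ∑ r, h i j r‖ ≤ 8 * √(m * L) * b ^ 2 := by
    set W : ℂ := ∑ r ∈ M, h i j r - ((q : ℝ) : ℂ) * ∑ r, h i j r with hW
    have e1 : W.re / b ^ 2 = ∑ r ∈ M, g ((i, j), true) r - q * ∑ r, g ((i, j), true) r := by
      have : ∀ r, g ((i, j), true) r = (h i j r).re / b ^ 2 := fun r => rfl
      simp only [this, ← sum_div]
      rw [hW, Complex.sub_re, Complex.re_ofReal_mul, Complex.re_sum, Complex.re_sum]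
      ring
    have e2 : W.im / b ^ 2 = ∑ r ∈ M, g ((i, j), false) r - q * ∑ r, g ((i, j), false) r := by
      have : ∀ r, g ((i, j), false) r = (h i j r).im / b ^ 2 := fun r => rfl
      simp only [this, ← sum_div]
      rw [hW, Complex.sub_im, Complex.im_ofReal_mul, Complex.im_sum, Complex.im_sum]
      ring
    rw [← e1, abs_div, abs_of_pos hb2, div_le_iff₀ hb2] at hre
    rw [← e2, abs_div, abs_of_pos hb2, div_le_iff₀ hb2] at him
    refine (Complex.norm_le_abs_re_add_abs_im W).trans ?_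
    linarith
  -- the exceptional part
  have hexc : ‖∑ r ∈ M, (f i j r - h i j r) - ((q : ℝ) : ℂ) * ∑ r, (f i j r - h i j r)‖ ≤
      ∑ r ∈ {i, j}, ‖(inner ℂ (x i) (x r) : ℂ)‖ * ‖(inner ℂ (x r) (x j) : ℂ)‖ := by
    have e1 : ∑ r ∈ M, (f i j r - h i j r) - ((q : ℝ) : ℂ) * ∑ r, (f i j r - h i j r) =
        ∑ r, (((if r ∈ M then 1 else 0) - q : ℝ) : ℂ) * (f i j r - h i j r) := by
      rw [mul_sum, ← sum_filter_add_sum_filter_not univ (· ∈ M)
        (fun r => (((if r ∈ M then 1 else 0) - q : ℝ) : ℂ) * (f i j r - h i j r))]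
      have e2 : ∑ r ∈ univ.filter (· ∈ M),
          (((if r ∈ M then 1 else 0) - q : ℝ) : ℂ) * (f i j r - h i j r) =
          ∑ r ∈ univ.filter (· ∈ M), (f i j r - h i j r) -
            ∑ r ∈ univ.filter (· ∈ M), ((q : ℝ) : ℂ) * (f i j r - h i j r) := by
        rw [← sum_sub_distrib]
        refine sum_congr rfl fun r hr => ?_
        rw [if_pos (mem_filter.mp hr).2]
        push_cast
        ring
      have e3 : ∑ r ∈ univ.filter (fun r => ¬ r ∈ M),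
          (((if r ∈ M then 1 else 0) - q : ℝ) : ℂ) * (f i j r - h i j r) =
          - ∑ r ∈ univ.filter (fun r => ¬ r ∈ M), ((q : ℝ) : ℂ) * (f i j r - h i j r) := by
        rw [← sum_neg_distrib]
        refine sum_congr rfl fun r hr => ?_
        rw [if_neg (mem_filter.mp hr).2]
        push_cast
        ring
      rw [e2, e3, ← sum_filter_add_sum_filter_not univ (· ∈ M)
        (fun r => ((q : ℝ) : ℂ) * (f i j r - h i j r))]
      have e4 : univ.filter (· ∈ M) = M := by ext r; simp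
      rw [e4]
      ring
    rw [e1]
    refine (norm_sum_le _ _).trans ?_
    have e5 : ∑ r ∈ ({i, j} : Finset (Fin N)),
        ‖(inner ℂ (x i) (x r) : ℂ)‖ * ‖(inner ℂ (x r) (x j) : ℂ)‖ =
        ∑ r, if r ∈ ({i, j} : Finset (Fin N)) then
          ‖(inner ℂ (x i) (x r) : ℂ)‖ * ‖(inner ℂ (x r) (x j) : ℂ)‖ else 0 := by
      rw [sum_ite_mem, univ_inter]
    rw [e5]
    apply sum_le_sum
    intro r _
    by_cases hr : r = i ∨ r = j
    · have e6 : h i j r = 0 := if_pos hr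
      have hmem : r ∈ ({i, j} : Finset (Fin N)) := by simpa using hr
      rw [if_pos hmem, e6, sub_zero, norm_mul, Complex.norm_real, Real.norm_eq_abs]
      have e7 : |(if r ∈ M then (1 : ℝ) else 0) - q| ≤ 1 := by
        rw [abs_le]
        split_ifs <;> constructor <;> linarith
      have e8 : ‖f i j r‖ = ‖(inner ℂ (x i) (x r) : ℂ)‖ * ‖(inner ℂ (x r) (x j) : ℂ)‖ :=
        norm_mul _ _
      rw [← e8]
      exact mul_le_of_le_one_left (norm_nonneg _) e7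
    · have e6 : h i j r = f i j r := if_neg hr
      rw [e6, sub_self, mul_zero, norm_zero, if_neg (by simpa using hr)]
  have hsplit : ∑ r ∈ M, (inner ℂ (x i) (x r) : ℂ) * inner ℂ (x r) (x j) -
        ((q : ℝ) : ℂ) * ∑ r, (inner ℂ (x i) (x r) : ℂ) * inner ℂ (x r) (x j) =
      (∑ r ∈ M, h i j r - ((q : ℝ) : ℂ) * ∑ r, h i j r) +
      (∑ r ∈ M, (f i j r - h i j r) - ((q : ℝ) : ℂ) * ∑ r, (f i j r - h i j r)) := by
    rw [sum_sub_distrib, sum_sub_distrib]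
    ring
  rw [hsplit]
  exact (norm_add_le _ _).trans (add_le_add hmain hexc)

end Pool.Agent.L7h42.Zauner.Exact
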