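import Mathlib

/-!
# The canonical tight frame and its Gram matrix
-/

set_option autoImplicit false

open Finset

namespace Pool.Agent.L7h42.Zauner.Exact

variable {E : Type*} [NormedAddCommGroup E] [InnerProductSpace ℂ E]

/-- the frame operator -/
noncomputable def fop {ι : Type*} (S : Finset ι) (x : ι → E) : E →L[ℂ] E :=
  ∑ i ∈ S, (innerSL ℂ (x i)).smulRight (x i)

lemma fop_apply {ι : Type*} (S : Finset ι) (x : ι → E) (y : E) :
    fop S x y = ∑ i ∈ S, (inner ℂ (x i) y : ℂ) • x i := by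
  rw [fop, ContinuousLinearMap.sum_apply]
  rfl

lemma fop_inner {ι : Type*} (S : Finset ι) (x : ι → E) (y z : E) :
    (inner ℂ z (fop S x y) : ℂ) = ∑ i ∈ S, (inner ℂ z (x i) : ℂ) * inner ℂ (x i) y := by
  rw [fop_apply, inner_sum]
  refine sum_congr rfl fun i _ => ?_
  rw [inner_smul_right, mul_comm]

lemma fop_symm {ι : Type*} (S : Finset ι) (x : ι → E) (y z : E) :
    (inner ℂ z (fop S x y) : ℂ) = inner ℂ (fop S x z) y := by
  rw [fop_inner, ← inner_conj_symm, fop_inner, map_sum]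
  refine sum_congr rfl fun i _ => ?_
  rw [map_mul, inner_conj_symm, inner_conj_symm, mul_comm]

lemma fop_self {ι : Type*} (S : Finset ι) (x : ι → E) (y : E) :
    (inner ℂ y (fop S x y) : ℂ) = ((∑ i ∈ S, ‖(inner ℂ (x i) y : ℂ)‖ ^ 2 : ℝ) : ℂ) := by
  rw [fop_inner, Complex.ofReal_sum]
  refine sum_congr rfl fun i _ => ?_
  rw [← inner_conj_symm y (x i), Complex.conj_mul']
  push_cast
  rfl

/-- the canonical tight frame -/
lemma tighten [FiniteDimensional ℂ E] {ι : Type*} (S : Finset ι) (x : ι → E) (d : ℝ) (hd : 0 < d)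
    (D : E →L[ℂ] E) (hD : ∀ y, ((d : ℝ) : ℂ) • (D y + y) = fop S x y)
    (hhalf : ∀ y, ‖D y‖ ≤ (1 / 2) * ‖y‖) :
    ∃ w : ι → E, (∀ y, ∑ i ∈ S, ‖(inner ℂ (w i) y : ℂ)‖ ^ 2 = d * ‖y‖ ^ 2) ∧
      ∀ i j, ‖(inner ℂ (w i) (w j) : ℂ) - inner ℂ (x i) (x j)‖ ≤
        ‖(inner ℂ (x i) (D (x j)) : ℂ)‖ + 2 * ‖D (x i)‖ * ‖D (x j)‖ := by
  haveI : CompleteSpace E := FiniteDimensional.complete ℂ E
  have hdC : ((d : ℝ) : ℂ) ≠ 0 := by exact_mod_cast hd.ne'
  set A : E →L[ℂ] E := fop S x with hA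
  have hpos : A.IsPositive := by
    rw [ContinuousLinearMap.isPositive_iff_complex]
    intro y
    rw [← fop_symm, fop_self]
    have hre : RCLike.re (((∑ i ∈ S, ‖(inner ℂ (x i) y : ℂ)‖ ^ 2 : ℝ) : ℂ)) =
        ∑ i ∈ S, ‖(inner ℂ (x i) y : ℂ)‖ ^ 2 := Complex.ofReal_re _
    constructor
    · rw [hre]
    · rw [hre]
      positivity
  have hA0 : 0 ≤ A := (ContinuousLinearMap.nonneg_iff_isPositive A).mpr hpos
  set s : E →L[ℂ] E := CFC.sqrt A with hs
  have hss : ∀ y, s (s y) = A y := by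
    intro y
    have h := CFC.sqrt_mul_sqrt_self A hA0
    calc s (s y) = (s * s) y := rfl
      _ = A y := by rw [hs, h]
  have hspos : s.IsPositive := (ContinuousLinearMap.nonneg_iff_isPositive s).mp (CFC.sqrt_nonneg A)
  have hsym : ∀ y z, (inner ℂ (s y) z : ℂ) = inner ℂ y (s z) := fun y z =>
    hspos.isSymmetric y z
  have hinj : Function.Injective s := by
    rw [injective_iff_map_eq_zero]
    intro y hy
    have h1 : A y = 0 := by rw [← hss, hy, map_zero]
    have h2 : D y + y = 0 := by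
      have := hD y
      rw [h1] at this
      exact (smul_eq_zero.mp this).resolve_left hdC
    have h3 : D y = -y := by rw [← add_eq_zero_iff_eq_neg]; exact h2
    have h4 := hhalf y
    rw [h3, norm_neg] at h4
    have h5 := norm_nonneg y
    exact norm_eq_zero.mp (by linarith)
  have hsurj : Function.Surjective s :=
    (LinearMap.injective_iff_surjective (f := (s : E →ₗ[ℂ] E))).mp hinj
  choose r hr using hsurj
  -- the new vectors
  let p : ι → E := fun i => r (r (x i))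
  have hp : ∀ i, A (p i) = x i := by
    intro i
    rw [← hss, hr, hr]
  have hsqrt : ((√d : ℝ) : ℂ) * ((√d : ℝ) : ℂ) = (d : ℂ) := by
    rw [← Complex.ofReal_mul, Real.mul_self_sqrt hd.le]
  have hsw : ∀ i, s (((√d : ℝ) : ℂ) • s (p i)) = ((√d : ℝ) : ℂ) • x i := by
    intro i
    rw [map_smul, hss, hp]
  have hDsym : ∀ y z, (inner ℂ (D y) z : ℂ) = inner ℂ y (D z) := by
    intro y z
    have h1 := fop_symm S x z y
    rw [← hA, ← hD, ← hD, inner_smul_right, inner_smul_left, Complex.conj_ofReal] at h1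
    have h2 := mul_left_cancel₀ hdC h1
    rw [inner_add_right, inner_add_left] at h2
    exact (add_right_cancel h2).symm
  refine ⟨fun i => ((√d : ℝ) : ℂ) • s (p i), ?_, ?_⟩
  · intro y
    have h1 : ∀ i, (inner ℂ (((√d : ℝ) : ℂ) • s (p i)) y : ℂ) =
        ((√d : ℝ) : ℂ) * inner ℂ (x i) (r y) := by
      intro i
      have e1 : y = s (r y) := (hr y).symm
      rw [e1, ← hsym, hsw, inner_smul_left, Complex.conj_ofReal, ← e1]
    have h2 : ∑ i ∈ S, ‖(inner ℂ (((√d : ℝ) : ℂ) • s (p i)) y : ℂ)‖ ^ 2 =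
        d * ∑ i ∈ S, ‖(inner ℂ (x i) (r y) : ℂ)‖ ^ 2 := by
      rw [mul_sum]
      refine sum_congr rfl fun i _ => ?_
      rw [h1, norm_mul, mul_pow, Complex.norm_real, Real.norm_eq_abs, sq_abs, Real.sq_sqrt hd.le]
    have h3 : ∑ i ∈ S, ‖(inner ℂ (x i) (r y) : ℂ)‖ ^ 2 = ‖y‖ ^ 2 := by
      have e1 := fop_self S x (r y)
      rw [← hA, ← hss, ← hsym, hr] at e1
      have e2 : (inner ℂ y y : ℂ) = ((‖y‖ ^ 2 : ℝ) : ℂ) := by
        rw [inner_self_eq_norm_sq_to_K]
        norm_cast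
      rw [e2] at e1
      exact (Complex.ofReal_injective e1).symm
    show ∑ i ∈ S, ‖(inner ℂ (((√d : ℝ) : ℂ) • s (p i)) y : ℂ)‖ ^ 2 = d * ‖y‖ ^ 2
    rw [h2, h3]
  · intro i j
    show ‖(inner ℂ (((√d : ℝ) : ℂ) • s (p i)) (((√d : ℝ) : ℂ) • s (p j)) : ℂ) -
      inner ℂ (x i) (x j)‖ ≤ _
    set q : E := ((d : ℝ) : ℂ) • p j with hq
    set t : E := D q with ht
    have hqx : t + q = x j := by
      have h1 := hD q
      have h0 : A q = ((d : ℝ) : ℂ) • x j := by rw [hq, map_smul, hp]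
      rw [h0] at h1
      exact smul_right_injective E hdC h1
    have h2 : (inner ℂ (((√d : ℝ) : ℂ) • s (p i)) (((√d : ℝ) : ℂ) • s (p j)) : ℂ) =
        inner ℂ (x i) q := by
      rw [inner_smul_right, ← hsym, hsw, inner_smul_left, Complex.conj_ofReal, ← mul_assoc, hsqrt,
        hq, inner_smul_right]
    have h3 : t = D (x j) - D t := by
      have : D (x j) = D t + D q := by rw [← hqx, map_add]
      rw [this, ← ht]
      abel
    have h4 : ‖t‖ ≤ 2 * ‖D (x j)‖ := by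
      have e1 : ‖t‖ ≤ ‖D (x j)‖ + ‖D t‖ := by
        conv_lhs => rw [h3]
        exact norm_sub_le _ _
      have e2 := hhalf t
      linarith
    have h5 : (inner ℂ (x i) q : ℂ) - inner ℂ (x i) (x j) =
        -(inner ℂ (x i) (D (x j)) : ℂ) + inner ℂ (D (x i)) t := by
      have e1 : q = x j - t := by rw [← hqx]; abel
      have e2 : (inner ℂ (D (x i)) t : ℂ) = inner ℂ (x i) (D t) := hDsym _ _
      have e3 : (inner ℂ (x i) t : ℂ) = inner ℂ (x i) (D (x j)) - inner ℂ (x i) (D t) := by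
        conv_lhs => rw [h3]
        rw [inner_sub_right]
      rw [e1, inner_sub_right, e3, e2]
      ring
    rw [h2, h5]
    refine (norm_add_le _ _).trans ?_
    rw [norm_neg]
    have h6 : ‖(inner ℂ (D (x i)) t : ℂ)‖ ≤ 2 * ‖D (x i)‖ * ‖D (x j)‖ := by
      calc ‖(inner ℂ (D (x i)) t : ℂ)‖ ≤ ‖D (x i)‖ * ‖t‖ := norm_inner_le_norm _ _
        _ ≤ ‖D (x i)‖ * (2 * ‖D (x j)‖) := mul_le_mul_of_nonneg_left h4 (norm_nonneg _)
        _ = 2 * ‖D (x i)‖ * ‖D (x j)‖ := by ring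
    linarith

end Pool.Agent.L7h42.Zauner.Exact
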